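import Pool.Agent.X193.COH.Right

namespace X193.COH

open MulOpposite

instance : Infinite RZ := Infinite.of_injective RZ.r (fun a b h => by cases h; rfl)

section main

variable {n m : ℕ} (K : Set ((Fin n × Wᵐᵒᵖ) × (Fin n × Wᵐᵒᵖ))) (c : Fin m → Fin n × Wᵐᵒᵖ)

/-- the pulled back congruence -/
def kap (p q : Fin m × Wᵐᵒᵖ) : Prop :=
  ActGen K ((c p.1).1, p.2 * (c p.1).2) ((c q.1).1, q.2 * (c q.1).2)

theorem kap_equiv : Equivalence (kap K c) :=
  ⟨fun _ => ActGen.refl _, fun h => ActGen.symm _ _ h, fun h1 h2 => ActGen.trans _ _ _ h1 h2⟩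

theorem kap_smul (s : Wᵐᵒᵖ) {p q : Fin m × Wᵐᵒᵖ} (h : kap K c p q) :
    kap K c (p.1, s * p.2) (q.1, s * q.2) := by
  have := ActGen.smul s _ _ h
  dsimp only at this
  rw [← mul_assoc, ← mul_assoc] at this
  exact this

variable {ι : Type} (τ : RZ → ι)

theorem kap_Phi (r : RZ) (h1 : Sing τ 1)
    (hK1 : ∀ k ∈ K, Sing τ k.1.2.unop.elt ∧ Unif τ (τ r) k.1.2.unop.set)
    (hK2 : ∀ k ∈ K, Sing τ k.2.2.unop.elt ∧ Unif τ (τ r) k.2.2.unop.set)
    (hc : ∀ i, Sing τ (c i).2.unop.elt ∧ Unif τ (τ r) (c i).2.unop.set)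
    {i j : Fin m} {U V : Set RZ} {u v : RZ} (h : kap K c (el i U u) (el j V v)) :
    kap K c (el i (Phi τ r U) u) (el j (Phi τ r V) v) := by
  have h2 := actGen_PhiA τ r h1 hK1 hK2 h
  have key : ∀ (i : Fin m) (U : Set RZ) (u : RZ),
      PhiA τ r ((c i).1, (op (⟨U, u⟩ : W)) * (c i).2) =
        ((c i).1, (op (⟨Phi τ r U, u⟩ : W)) * (c i).2) := by
    intro i U u
    exact PhiA_mul τ (D := (c i).2.unop.set) (d := (c i).2.unop.elt) (hc i).2 (hc i).1 h1
  dsimp only [el] at h2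
  rw [key, key] at h2
  exact h2

/-- the set of uniform subsets -/
def Uset : Set (Set RZ) := {U | ∀ t, Unif τ t U}

theorem Uset_finite [Finite ι] : (Uset τ).Finite := by
  refine Set.Finite.subset (Set.finite_range (fun J : Set ι => τ ⁻¹' J)) ?_
  intro U hU
  refine ⟨τ '' U, ?_⟩
  ext x
  constructor
  · rintro ⟨y, hy, hyx⟩
    exact (hU (τ x) y x hyx rfl).mp hy
  · intro hx
    exact ⟨x, hx, rfl⟩

/-- the finite generating set -/
def Kfin (Q0 : Set RZ) : Set ((Fin m × Wᵐᵒᵖ) × (Fin m × Wᵐᵒᵖ)) :=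
  {pq | kap K c pq.1 pq.2 ∧ (pq.1.2.unop.set ∈ Uset τ ∧ pq.1.2.unop.elt ∈ Q0) ∧
    (pq.2.2.unop.set ∈ Uset τ ∧ pq.2.2.unop.elt ∈ Q0)}

theorem Kfin_finite [Finite ι] {Q0 : Set RZ} (hQ0 : Q0.Finite) : (Kfin K c τ Q0).Finite := by
  have hG : {p : Fin m × Wᵐᵒᵖ | p.2.unop.set ∈ Uset τ ∧ p.2.unop.elt ∈ Q0}.Finite := by
    refine Set.Finite.subset (((Set.finite_univ (α := Fin m)).prod
      ((Uset_finite τ).prod hQ0)).image
        (fun x : Fin m × (Set RZ × RZ) => (el x.1 x.2.1 x.2.2 : Fin m × Wᵐᵒᵖ))) ?_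
    rintro ⟨i, p⟩ hp
    exact ⟨(i, (p.unop.set, p.unop.elt)), ⟨Set.mem_univ _, hp⟩, rfl⟩
  refine Set.Finite.subset (hG.prod hG) ?_
  rintro ⟨p, q⟩ ⟨_, h1, h2⟩
  exact ⟨h1, h2⟩

theorem step1 {Q0 : Set RZ} (h1 : Sing τ 1)
    (hK1 : ∀ k ∈ K, Sing τ k.1.2.unop.elt ∧ ∀ t, Unif τ t k.1.2.unop.set)
    (hK2 : ∀ k ∈ K, Sing τ k.2.2.unop.elt ∧ ∀ t, Unif τ t k.2.2.unop.set)
    (hc : ∀ i, Sing τ (c i).2.unop.elt ∧ ∀ t, Unif τ t (c i).2.unop.set)
    {u v : RZ} (hu : u ∈ Q0) (hv : v ∈ Q0) {i j : Fin m} (𝒯 : Finset ι) :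
    ∀ (U V : Set RZ), (∀ t ∉ 𝒯, Unif τ t U ∧ Unif τ t V) → kap K c (el i U u) (el j V v) →
      ActGen (Kfin K c τ Q0) (el i U u) (el j V v) := by
  classical
  induction 𝒯 using Finset.induction_on with
  | empty =>
    intro U V hUV h
    refine ActGen.base _ _ ⟨h, ⟨?_, hu⟩, ⟨?_, hv⟩⟩
    · intro t; exact (hUV t (by simp)).1
    · intro t; exact (hUV t (by simp)).2
  | insert t 𝒯 ht ih =>
    intro U V hUV h
    by_cases hun : Unif τ t U ∧ Unif τ t V
    · refine ih U V ?_ h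
      intro t' ht'
      by_cases htt : t' = t
      · rw [htt]; exact hun
      · exact hUV t' (by
          rw [Finset.mem_insert]
          push Not
          exact ⟨htt, ht'⟩)
    · let T : Set RZ := {x | τ x = t}
      have hT1 : (1 : RZ) ∉ T := by
        intro h'
        apply hun
        have hall : ∀ D : Set RZ, Unif τ t D := by
          intro D x y hx hy
          rw [h1 x (hx.trans h'.symm), h1 y (hy.trans h'.symm)]
        exact ⟨hall U, hall V⟩
      have hTne : T.Nonempty := by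
        by_contra hne
        rw [Set.not_nonempty_iff_eq_empty] at hne
        apply hun
        have hall : ∀ D : Set RZ, Unif τ t D := by
          intro D x y hx hy
          have : x ∈ T := hx
          rw [hne] at this
          exact absurd this (by simp)
        exact ⟨hall U, hall V⟩
      refine mixing hT1 hTne ?_
      intro r hr A B hA1 hA0 hB1 hB0
      have hr' : τ r = t := hr
      have e : ∀ (X C : Set RZ), (r ∈ X → C = T) → (r ∉ X → C = ∅) → X \ T ∪ C = Phi τ r X := by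
        intro X C hC1 hC0
        ext x
        by_cases hx : τ x = τ r
        · have hxT : x ∈ T := hx.trans hr'
          rw [mem_Phi_of_eq τ hx]
          constructor
          · rintro (h' | h')
            · exact absurd hxT h'.2
            · by_contra hrX
              rw [hC0 hrX] at h'
              exact h'
          · intro hrX
            right
            rw [hC1 hrX]
            exact hxT
        · have hxT : x ∉ T := fun h' => hx (Eq.trans h' hr'.symm)
          rw [mem_Phi_of_ne τ hx]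
          constructor
          · rintro (h' | h')
            · exact h'.1
            · exfalso
              by_cases hrX : r ∈ X
              · rw [hC1 hrX] at h'
                exact hxT h'
              · rw [hC0 hrX] at h'
                exact h'
          · intro hx'
            exact Or.inl ⟨hx', hxT⟩
      rw [e U A hA1 hA0, e V B hB1 hB0]
      refine ih _ _ ?_ (kap_Phi K c τ r h1 (fun k hk => ⟨(hK1 k hk).1, (hK1 k hk).2 _⟩)
        (fun k hk => ⟨(hK2 k hk).1, (hK2 k hk).2 _⟩) (fun i => ⟨(hc i).1, (hc i).2 _⟩) h)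
      intro t' ht'
      by_cases htt : t' = t
      · rw [htt, ← hr']
        exact ⟨Phi_unif τ r U, Phi_unif τ r V⟩
      · have := hUV t' (by
          rw [Finset.mem_insert]
          push Not
          exact ⟨htt, ht'⟩)
        exact ⟨Phi_unif' τ this.1, Phi_unif' τ this.2⟩

end main

theorem rightCoherent : RightCoherent (SP RZ) := by
  classical
  refine leftCoherent_of ?_
  intro n m K hK c
  let comps : Set (Fin n × Wᵐᵒᵖ) := (Prod.fst '' K ∪ Prod.snd '' K) ∪ Set.range c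
  have hcomps : comps.Finite := ((hK.image _).union (hK.image _)).union (Set.finite_range c)
  let Q : Set RZ := {1} ∪ (fun p : Fin n × Wᵐᵒᵖ => p.2.unop.elt) '' comps
  have hQ : Q.Finite := (Set.finite_singleton _).union (hcomps.image _)
  let 𝒟 : Set (Set RZ) := (fun p : Fin n × Wᵐᵒᵖ => p.2.unop.set) '' comps
  have h𝒟 : 𝒟.Finite := hcomps.image _
  have : Finite Q := hQ
  have : Finite 𝒟 := h𝒟
  let τ : RZ → Set Q × Set 𝒟 := fun x => ({q | x = q.1}, {D | x ∈ D.1})
  have : Fintype (Set Q × Set 𝒟) := Fintype.ofFinite _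
  have hSing : ∀ q ∈ Q, Sing τ q := by
    intro q hq x hx
    have h1 : ({q | x = q.1} : Set Q) = {q' | q = q'.1} := congrArg Prod.fst hx
    have h2 : (⟨q, hq⟩ : Q) ∈ ({q' | q = q'.1} : Set Q) := rfl
    rw [← h1] at h2
    exact h2
  have hUnif : ∀ D ∈ 𝒟, ∀ t, Unif τ t D := by
    intro D hD t x y hx hy
    have h1 : ({D | x ∈ D.1} : Set 𝒟) = {D | y ∈ D.1} := congrArg Prod.snd (hx.trans hy.symm)
    constructor
    · intro h
      have h2 : (⟨D, hD⟩ : 𝒟) ∈ ({D | x ∈ D.1} : Set 𝒟) := h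
      rw [h1] at h2
      exact h2
    · intro h
      have h2 : (⟨D, hD⟩ : 𝒟) ∈ ({D | y ∈ D.1} : Set 𝒟) := h
      rw [← h1] at h2
      exact h2
  have h1Q : (1 : RZ) ∈ Q := Or.inl rfl
  have hQc : ∀ p ∈ comps, p.2.unop.elt ∈ Q := fun p hp => Or.inr ⟨p, hp, rfl⟩
  have h𝒟c : ∀ p ∈ comps, p.2.unop.set ∈ 𝒟 := fun p hp => ⟨p, hp, rfl⟩
  have hcK1 : ∀ k ∈ K, k.1 ∈ comps := fun k hk => Or.inl (Or.inl ⟨k, hk, rfl⟩)
  have hcK2 : ∀ k ∈ K, k.2 ∈ comps := fun k hk => Or.inl (Or.inr ⟨k, hk, rfl⟩)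
  have hcc : ∀ i, c i ∈ comps := fun i => Or.inr ⟨i, rfl⟩
  obtain ⟨y0, hy0⟩ := hQ.exists_notMem
  have hy01 : y0 ≠ 1 := fun h => hy0 (h ▸ h1Q)
  let Q0 : Set RZ := insert y0 Q
  have hQ0 : Q0.Finite := hQ.insert _
  have S1 : ∀ (i j : Fin m) (U V : Set RZ) (u v : RZ), u ∈ Q0 → v ∈ Q0 →
      kap K c (el i U u) (el j V v) → ActGen (Kfin K c τ Q0) (el i U u) (el j V v) := by
    intro i j U V u v hu hv h
    refine step1 K c τ (hSing 1 h1Q) ?_ ?_ ?_ hu hv Finset.univ U V ?_ h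
    · intro k hk
      exact ⟨hSing _ (hQc _ (hcK1 k hk)), hUnif _ (h𝒟c _ (hcK1 k hk))⟩
    · intro k hk
      exact ⟨hSing _ (hQc _ (hcK2 k hk)), hUnif _ (h𝒟c _ (hcK2 k hk))⟩
    · intro i
      exact ⟨hSing _ (hQc _ (hcc i)), hUnif _ (h𝒟c _ (hcc i))⟩
    · intro t ht
      exact absurd (Finset.mem_univ t) ht
  refine ⟨Kfin K c τ Q0, Kfin_finite K c τ hQ0, ?_⟩
  intro p q
  change kap K c p q ↔ _
  constructor
  · intro h
    obtain ⟨i, ⟨U, u⟩⟩ := p
    obtain ⟨j, ⟨V, v⟩⟩ := q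
    change kap K c (el i U u) (el j V v) at h
    change ActGen (Kfin K c τ Q0) (el i U u) (el j V v)
    have hlev : ∀ y, y ∉ Q → (u = y ↔ v = y) := by
      intro y hy
      have hy1 : y ≠ 1 := fun h => hy (h ▸ h1Q)
      have h2 := actGen_level (y := y) hy1 (fun k hk =>
        ⟨fun h => hy (h ▸ hQc _ (hcK1 k hk)), fun h => hy (h ▸ hQc _ (hcK2 k hk))⟩) h
      dsimp only [el] at h2
      rw [unop_mul, unop_mul, SP.mul_elt, SP.mul_elt,
        mul_eq_iff hy1 (fun h => hy (h ▸ hQc _ (hcc i))),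
        mul_eq_iff hy1 (fun h => hy (h ▸ hQc _ (hcc j)))] at h2
      exact h2
    by_cases hu : u ∈ Q
    · by_cases hv : v ∈ Q
      · exact S1 i j U V u v (Or.inr hu) (Or.inr hv) h
      · exfalso
        have := (hlev v hv).mpr rfl
        exact hv (this ▸ hu)
    · have hvu : v = u := (hlev u hu).mp rfl
      subst hvu
      have hy1 : v ≠ 1 := fun h => hu (h ▸ h1Q)
      have h2 := actGen_rep (y := v) (y0 := y0) hy01 hy1 (fun k hk =>
        ⟨fun h => hu (h ▸ hQc _ (hcK1 k hk)), fun h => hu (h ▸ hQc _ (hcK2 k hk))⟩) h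
      have key : ∀ (i : Fin m) (U : Set RZ),
          rep v y0 ((c i).1, (op (⟨U, v⟩ : W)) * (c i).2) =
            ((c i).1, (op (⟨U, y0⟩ : W)) * (c i).2) := by
        intro i U
        have e1 : (op (⟨U, v⟩ : W)) * (c i).2 =
            op ⟨(c i).2.unop.set ∪ lm (c i).2.unop.elt U, (c i).2.unop.elt * v⟩ := rfl
        have e2 : (op (⟨U, y0⟩ : W)) * (c i).2 =
            op ⟨(c i).2.unop.set ∪ lm (c i).2.unop.elt U, (c i).2.unop.elt * y0⟩ := rfl
        rw [e1, e2]
        unfold rep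
        dsimp only [unop_op]
        rw [RZ.mul_ne_one hy1, RZ.mul_ne_one hy01, if_pos rfl]
      dsimp only [el] at h2
      rw [key, key] at h2
      have h3 := S1 i j U V y0 y0 (Or.inl rfl) (Or.inl rfl) h2
      have h4 := ActGen.smul (op (⟨∅, v⟩ : W)) _ _ h3
      dsimp only at h4
      rw [mul_op, mul_op, RZ.mul_ne_one hy1] at h4
      have e3 : ∀ U : Set RZ, U ∪ lm y0 ∅ = U := by
        intro U
        unfold lm
        simp
      rw [e3, e3] at h4
      exact h4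
  · intro h
    refine ActGen.map (kap_equiv K c) id ?_ h
    intro p q hpq s
    exact kap_smul K c s hpq.1

end X193.COH
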