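import Mathlib

namespace X193.COH

/-- The underlying set `P(M) × M` of the special semidirect product. -/
@[ext] structure SP (M : Type) where
  set : Set M
  elt : M

/-- The special semidirect product: `(X, x) (Y, y) = (X ∪ xY, xy)` with identity `(∅, 1)`. -/
instance SP.instMonoid (M : Type) [Monoid M] : Monoid (SP M) where
  mul a b := ⟨a.set ∪ (fun y => a.elt * y) '' b.set, a.elt * b.elt⟩
  one := ⟨∅, 1⟩
  mul_assoc a b c := by
    apply SP.ext
    · change (a.set ∪ (fun y => a.elt * y) '' b.set) ∪ (fun y => (a.elt * b.elt) * y) '' c.set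
        = a.set ∪ (fun y => a.elt * y) '' (b.set ∪ (fun y => b.elt * y) '' c.set)
      rw [Set.image_union, Set.image_image, Set.union_assoc]
      simp [mul_assoc]
    · exact mul_assoc _ _ _
  one_mul a := by
    apply SP.ext
    · change ∅ ∪ (fun y => (1 : M) * y) '' a.set = a.set
      simp
    · exact one_mul _
  mul_one a := by
    apply SP.ext
    · change a.set ∪ (fun y => a.elt * y) '' (∅ : Set M) = a.set
      simp
    · exact mul_one _

theorem SP.mul_set {M : Type} [Monoid M] (a b : SP M) :
    (a * b).set = a.set ∪ (fun y => a.elt * y) '' b.set := rfl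

theorem SP.mul_elt {M : Type} [Monoid M] (a b : SP M) :
    (a * b).elt = a.elt * b.elt := rfl

theorem SP.one_set {M : Type} [Monoid M] : (1 : SP M).set = ∅ := rfl
theorem SP.one_elt {M : Type} [Monoid M] : (1 : SP M).elt = 1 := rfl

/-- The congruence on the free left `S`-act `Fin n × S` (with `s (i, t) = (i, s t)`) generated by
a set `K` of pairs. -/
inductive ActGen {S : Type} [Monoid S] {n : ℕ} (K : Set ((Fin n × S) × (Fin n × S))) :
    Fin n × S → Fin n × S → Prop
  | base (p q : Fin n × S) : (p, q) ∈ K → ActGen K p q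
  | refl (p : Fin n × S) : ActGen K p p
  | symm (p q : Fin n × S) : ActGen K p q → ActGen K q p
  | trans (p q r : Fin n × S) : ActGen K p q → ActGen K q r → ActGen K p r
  | smul (s : S) (p q : Fin n × S) : ActGen K p q → ActGen K (p.1, s * p.2) (q.1, s * q.2)

/-- The left `S`-act `A` is finitely presented: there are `n`, a surjective map of acts
`(i, s) ↦ s • c i` from the free act `Fin n × S` onto `A`, and a finite set `K` of pairs which
generates the kernel congruence of this map. -/
def FinPres (S A : Type) [Monoid S] [MulAction S A] : Prop :=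
  ∃ (n : ℕ) (c : Fin n → A) (K : Set ((Fin n × S) × (Fin n × S))), K.Finite ∧
    (∀ a : A, ∃ (i : Fin n) (s : S), s • c i = a) ∧
    ∀ p q : Fin n × S, p.2 • c p.1 = q.2 • c q.1 ↔ ActGen K p q

/-- `S` is left coherent: every finitely generated subact of a finitely presented left `S`-act is
finitely presented. -/
def LeftCoherent (S : Type) [Monoid S] : Prop :=
  ∀ (A : Type) [MulAction S A], FinPres S A → ∀ B : SubMulAction S A,
    (∃ (m : ℕ) (b : Fin m → A), ∀ a : A, a ∈ B ↔ ∃ (i : Fin m) (s : S), s • b i = a) →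
      FinPres S B

/-- `S` is right coherent: the left-right dual (right `S`-acts are left `Sᵐᵒᵖ`-acts). -/
def RightCoherent (S : Type) [Monoid S] : Prop := LeftCoherent Sᵐᵒᵖ

/-- The infinite right zero semigroup `{r 0, r 1, ...}` with an identity `one` adjoined. -/
inductive RZ where
  | one : RZ
  | r (n : ℕ) : RZ

/-- `x * one = x` and `x * r n = r n`. -/
def RZ.mul : RZ → RZ → RZ
  | x, RZ.one => x
  | _, RZ.r n => RZ.r n

instance : Monoid RZ where
  mul := RZ.mul
  one := RZ.one
  mul_assoc a b c := by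
    cases c with
    | one => rfl
    | r n => rfl
  one_mul a := by cases a <;> rfl
  mul_one a := rfl

theorem RZ.one_def : (1 : RZ) = RZ.one := rfl
theorem RZ.mul_r (x : RZ) (n : ℕ) : x * RZ.r n = RZ.r n := rfl
theorem RZ.r_ne_one (n : ℕ) : RZ.r n ≠ 1 := by
  intro h
  cases h

theorem RZ.mul_ne_one {x y : RZ} (hy : y ≠ 1) : x * y = y := by
  cases y with
  | one => exact absurd rfl hy
  | r n => rfl

theorem RZ.mem_image {x z : RZ} {Y : Set RZ} :
    z ∈ (fun y => x * y) '' Y ↔ (z ≠ 1 ∧ z ∈ Y) ∨ (z = x ∧ (1 : RZ) ∈ Y) := by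
  constructor
  · rintro ⟨y, hy, rfl⟩
    by_cases h : y = 1
    · subst h
      right
      exact ⟨mul_one _, hy⟩
    · left
      dsimp only
      rw [RZ.mul_ne_one h]
      exact ⟨h, hy⟩
  · rintro (⟨h1, h2⟩ | ⟨rfl, h2⟩)
    · exact ⟨z, h2, RZ.mul_ne_one h1⟩
    · exact ⟨1, h2, mul_one _⟩

section general

variable {S : Type} [Monoid S]

theorem ActGen.one_n {n : ℕ} {p q : Fin n × S}
    (h : ActGen (∅ : Set ((Fin n × S) × (Fin n × S))) p q) : p = q := by
  induction h with
  | base p q h => exact absurd h (by simp)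
  | refl p => rfl
  | symm p q _ ih => exact ih.symm
  | trans p q r _ _ ih1 ih2 => exact ih1.trans ih2
  | smul s p q _ ih => rw [ih]

/-- A function on the free act which maps every basic step to a related pair preserves the
generated congruence. -/
theorem ActGen.map {n m : ℕ} {K : Set ((Fin n × S) × (Fin n × S))} {R : Fin m × S → Fin m × S → Prop}
    (hr : Equivalence R)
    (f : Fin n × S → Fin m × S)
    (hf : ∀ p q, (p, q) ∈ K → ∀ s : S, R (f (p.1, s * p.2)) (f (q.1, s * q.2)))
    {p q : Fin n × S} (h : ActGen K p q) : R (f p) (f q) := by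
  have key : ∀ p q, ActGen K p q → ∀ s : S, R (f (p.1, s * p.2)) (f (q.1, s * q.2)) := by
    intro p q h
    induction h with
    | base p q h => exact hf p q h
    | refl p => intro s; exact hr.refl _
    | symm p q _ ih => intro s; exact hr.symm (ih s)
    | trans p q r _ _ ih1 ih2 => intro s; exact hr.trans (ih1 s) (ih2 s)
    | smul t p q _ ih =>
      intro s
      have := ih (s * t)
      simpa [mul_assoc] using this
  have := key p q h 1
  simpa using this

theorem ActGen.equivalence {n : ℕ} (K : Set ((Fin n × S) × (Fin n × S))) :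
    Equivalence (ActGen K) :=
  ⟨fun p => ActGen.refl p, fun h => ActGen.symm _ _ h, fun h1 h2 => ActGen.trans _ _ _ h1 h2⟩

/-- The criterion for coherency in terms of congruences on free acts. -/
theorem leftCoherent_of
    (H : ∀ (n m : ℕ) (K : Set ((Fin n × S) × (Fin n × S))), K.Finite → ∀ c : Fin m → Fin n × S,
      ∃ K' : Set ((Fin m × S) × (Fin m × S)), K'.Finite ∧ ∀ p q : Fin m × S,
        ActGen K ((c p.1).1, p.2 * (c p.1).2) ((c q.1).1, q.2 * (c q.1).2) ↔ ActGen K' p q) :
    LeftCoherent S := by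
  intro A _ hA B hB
  obtain ⟨n, a, K, hK, hgen, hker⟩ := hA
  obtain ⟨m, b, hb⟩ := hB
  have hbB : ∀ k, b k ∈ B := fun k => (hb _).mpr ⟨k, 1, one_smul _ _⟩
  have hc : ∀ k, ∃ x : Fin n × S, x.2 • a x.1 = b k := by
    intro k
    obtain ⟨i, s, h⟩ := hgen (b k)
    exact ⟨(i, s), h⟩
  choose c hc using hc
  obtain ⟨K', hK', hKer'⟩ := H n m K hK c
  refine ⟨m, fun k => ⟨b k, hbB k⟩, K', hK', ?_, ?_⟩
  · rintro ⟨x, hx⟩
    obtain ⟨i, s, h⟩ := (hb x).mp hx
    exact ⟨i, s, Subtype.ext h⟩
  · intro p q
    rw [← hKer' p q, ← hker]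
    rw [Subtype.ext_iff]
    change p.2 • b p.1 = q.2 • b q.1 ↔ _
    dsimp only
    rw [mul_smul, mul_smul, hc, hc]

end general

end X193.COH
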