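import Pool.Agent.X193.COH.Defs

namespace X193.COH.Idl

open MulOpposite X193.COH

section basics

variable {E : Type} [Monoid E]

/-- the element `(i, (X, x))` of the free right act -/
abbrev el {n : ℕ} (i : Fin n) (X : Set E) (x : E) : Fin n × (SP E)ᵐᵒᵖ := (i, op ⟨X, x⟩)

/-- the set-level left multiplication -/
def lm (x : E) (Y : Set E) : Set E := (fun y => x * y) '' Y

theorem mul_op (X Y : Set E) (x y : E) :
    (op (⟨Y, y⟩ : SP E)) * (op (⟨X, x⟩ : SP E)) = op (⟨X ∪ lm x Y, x * y⟩ : SP E) := rfl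

theorem lm_one (Y : Set E) : lm 1 Y = Y := by
  unfold lm
  simp

theorem lm_empty (x : E) : lm x ∅ = ∅ := by
  unfold lm
  simp

/-- adding a set to both sides -/
theorem add_set {m : ℕ} {K : Set ((Fin m × (SP E)ᵐᵒᵖ) × (Fin m × (SP E)ᵐᵒᵖ))} {i j : Fin m}
    {X Y : Set E} (C : Set E) (h : ActGen K (el i X 1) (el j Y 1)) :
    ActGen K (el i (X ∪ C) 1) (el j (Y ∪ C) 1) := by
  have := ActGen.smul (op (⟨C, 1⟩ : SP E)) _ _ h
  dsimp only at this
  rw [mul_op, mul_op, lm_one, mul_one] at this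
  exact this

/-- multiplying by `(∅, u)` -/
theorem mul_level {m : ℕ} {K : Set ((Fin m × (SP E)ᵐᵒᵖ) × (Fin m × (SP E)ᵐᵒᵖ))} {i j : Fin m}
    {X Y : Set E} (u : E) (h : ActGen K (el i X 1) (el j Y 1)) :
    ActGen K (el i X u) (el j Y u) := by
  have := ActGen.smul (op (⟨∅, u⟩ : SP E)) _ _ h
  dsimp only at this
  rw [mul_op, mul_op, lm_empty, one_mul, Set.union_empty, Set.union_empty] at this
  exact this

variable {ι : Type} (τ : E → ι)

open Classical in
/-- The uniformisation of `X` at `r`. -/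
noncomputable def Phi (r : E) (X : Set E) : Set E :=
  {x | if τ x = τ r then r ∈ X else x ∈ X}

theorem mem_Phi_of_eq {r x : E} {X : Set E} (h : τ x = τ r) : x ∈ Phi τ r X ↔ r ∈ X := by
  simp [Phi, h]

theorem mem_Phi_of_ne {r x : E} {X : Set E} (h : τ x ≠ τ r) : x ∈ Phi τ r X ↔ x ∈ X := by
  simp [Phi, h]

theorem Phi_union (r : E) (X Y : Set E) : Phi τ r (X ∪ Y) = Phi τ r X ∪ Phi τ r Y := by
  ext x
  by_cases h : τ x = τ r
  · rw [Set.mem_union, mem_Phi_of_eq τ h, mem_Phi_of_eq τ h, mem_Phi_of_eq τ h, Set.mem_union]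
  · rw [Set.mem_union, mem_Phi_of_ne τ h, mem_Phi_of_ne τ h, mem_Phi_of_ne τ h, Set.mem_union]

/-- `U` is uniform on the class `t`. -/
def Unif (t : ι) (U : Set E) : Prop := ∀ x y, τ x = t → τ y = t → (x ∈ U ↔ y ∈ U)

theorem Phi_fix {r : E} {D : Set E} (h : Unif τ (τ r) D) : Phi τ r D = D := by
  ext x
  by_cases hx : τ x = τ r
  · rw [mem_Phi_of_eq τ hx]
    exact h r x rfl hx
  · rw [mem_Phi_of_ne τ hx]

theorem Phi_unif (r : E) (X : Set E) : Unif τ (τ r) (Phi τ r X) := by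
  intro x y hx hy
  rw [mem_Phi_of_eq τ hx, mem_Phi_of_eq τ hy]

theorem Phi_unif' {r : E} {X : Set E} {t : ι} (h : Unif τ t X) : Unif τ t (Phi τ r X) := by
  by_cases ht : t = τ r
  · rw [ht]; exact Phi_unif τ r X
  · intro x y hx hy
    rw [mem_Phi_of_ne τ (by rw [hx]; exact ht), mem_Phi_of_ne τ (by rw [hy]; exact ht)]
    exact h x y hx hy

/-- the set of uniform subsets -/
def Uset : Set (Set E) := {U | ∀ t, Unif τ t U}

theorem Uset_finite [Finite ι] : (Uset τ).Finite := by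
  refine Set.Finite.subset (Set.finite_range (fun J : Set ι => τ ⁻¹' J)) ?_
  intro U hU
  refine ⟨τ '' U, ?_⟩
  ext x
  constructor
  · rintro ⟨y, hy, hyx⟩
    exact (hU (τ x) y x hyx rfl).mp hy
  · intro hx
    exact ⟨x, hx, rfl⟩

/-- the mixing lemma on one class `T` -/
theorem mixing {m : ℕ} {K : Set ((Fin m × (SP E)ᵐᵒᵖ) × (Fin m × (SP E)ᵐᵒᵖ))} {i j : Fin m}
    {U V T : Set E} (hTne : T.Nonempty)
    (h : ∀ r ∈ T, ∀ A B : Set E, (r ∈ U → A = T) → (r ∉ U → A = ∅) → (r ∈ V → B = T) →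
      (r ∉ V → B = ∅) → ActGen K (el i (U \ T ∪ A) 1) (el j (V \ T ∪ B) 1)) :
    ActGen K (el i U 1) (el j V 1) := by
  have hU : U = U \ T ∪ (U ∩ T) := (Set.sdiff_union_inter U T).symm
  have hV : V = V \ T ∪ (V ∩ T) := (Set.sdiff_union_inter V T).symm
  have e1 : ∀ X Y : Set E, Y ⊆ T → X ∪ T ∪ Y = X ∪ T := by
    intro X Y hY
    rw [Set.union_assoc, Set.union_eq_self_of_subset_right hY]
  have h11 : ∀ r ∈ T, r ∈ U → r ∈ V → ActGen K (el i (U \ T ∪ T) 1) (el j (V \ T ∪ T) 1) := by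
    intro r hr h1 h2
    exact h r hr T T (fun _ => rfl) (fun h' => absurd h1 h') (fun _ => rfl) (fun h' => absurd h2 h')
  have h10 : ∀ r ∈ T, r ∈ U → r ∉ V → ActGen K (el i (U \ T ∪ T) 1) (el j (V \ T) 1) := by
    intro r hr h1 h2
    have := h r hr T ∅ (fun _ => rfl) (fun h' => absurd h1 h') (fun h' => absurd h' h2)
      (fun _ => rfl)
    rwa [Set.union_empty] at this
  have h01 : ∀ r ∈ T, r ∉ U → r ∈ V → ActGen K (el i (U \ T) 1) (el j (V \ T ∪ T) 1) := by
    intro r hr h1 h2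
    have := h r hr ∅ T (fun h' => absurd h' h1) (fun _ => rfl) (fun _ => rfl)
      (fun h' => absurd h2 h')
    rwa [Set.union_empty] at this
  have h00 : ∀ r ∈ T, r ∉ U → r ∉ V → ActGen K (el i (U \ T) 1) (el j (V \ T) 1) := by
    intro r hr h1 h2
    have := h r hr ∅ ∅ (fun h' => absurd h' h1) (fun _ => rfl) (fun h' => absurd h' h2)
      (fun _ => rfl)
    rwa [Set.union_empty, Set.union_empty] at this
  rw [hU, hV]
  by_cases c10 : ∃ r ∈ T, r ∈ U ∧ r ∉ V
  · obtain ⟨r, hr, hrU, hrV⟩ := c10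
    have f10 := h10 r hr hrU hrV
    by_cases c01 : ∃ r ∈ T, r ∉ U ∧ r ∈ V
    · obtain ⟨r', hr', hrU', hrV'⟩ := c01
      have f01 := h01 r' hr' hrU' hrV'
      have g1 := add_set (U ∩ T) f01
      rw [e1 _ _ Set.inter_subset_right] at g1
      have g2 := add_set T f10
      rw [e1 _ _ subset_rfl] at g2
      have g3 := add_set (V ∩ T) f10
      rw [e1 _ _ Set.inter_subset_right] at g3
      exact (g1.trans _ _ _ g2.symm).trans _ _ _ g3
    · push Not at c01
      have g3 := add_set (V ∩ T) f10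
      rw [e1 _ _ Set.inter_subset_right] at g3
      refine ActGen.trans _ _ _ ?_ g3
      by_cases c00 : ∃ r ∈ T, r ∉ U ∧ r ∉ V
      · obtain ⟨r', hr', hrU', hrV'⟩ := c00
        have f00 := h00 r' hr' hrU' hrV'
        have g4 := add_set (U ∩ T) (f00.trans _ _ _ f10.symm)
        rw [e1 _ _ Set.inter_subset_right] at g4
        exact g4
      · push Not at c00
        have : U ∩ T = T := by
          apply Set.inter_eq_right.mpr
          intro x hx
          by_contra hxU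
          exact c01 x hx hxU (c00 x hx hxU)
        rw [this]
        exact ActGen.refl _
  · push Not at c10
    by_cases c01 : ∃ r ∈ T, r ∉ U ∧ r ∈ V
    · obtain ⟨r', hr', hrU', hrV'⟩ := c01
      have f01 := h01 r' hr' hrU' hrV'
      have g1 := add_set (U ∩ T) f01
      rw [e1 _ _ Set.inter_subset_right] at g1
      refine ActGen.trans _ _ _ g1 ?_
      by_cases c00 : ∃ r ∈ T, r ∉ U ∧ r ∉ V
      · obtain ⟨r'', hr'', hrU'', hrV''⟩ := c00
        have f00 := h00 r'' hr'' hrU'' hrV''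
        have g4 := add_set (V ∩ T) (f00.symm.trans _ _ _ f01)
        rw [e1 _ _ Set.inter_subset_right] at g4
        exact g4.symm
      · push Not at c00
        have : V ∩ T = T := by
          apply Set.inter_eq_right.mpr
          intro x hx
          by_cases hxU : x ∈ U
          · exact c10 x hx hxU
          · exact c00 x hx hxU
        rw [this]
        exact ActGen.refl _
    · push Not at c01
      have hUV : U ∩ T = V ∩ T := by
        ext x
        constructor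
        · rintro ⟨h1, h2⟩
          exact ⟨c10 x h2 h1, h2⟩
        · rintro ⟨h1, h2⟩
          refine ⟨?_, h2⟩
          by_contra h3
          exact c01 x h2 h3 h1
      by_cases c00 : ∃ r ∈ T, r ∉ U ∧ r ∉ V
      · obtain ⟨r'', hr'', hrU'', hrV''⟩ := c00
        have f00 := h00 r'' hr'' hrU'' hrV''
        have g4 := add_set (U ∩ T) f00
        rw [← hUV]
        exact g4
      · push Not at c00
        have hTU : U ∩ T = T := by
          apply Set.inter_eq_right.mpr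
          intro x hx
          by_contra hxU
          exact c01 x hx hxU (c00 x hx hxU)
        rw [← hUV, hTU]
        obtain ⟨r, hr⟩ := hTne
        have hrU : r ∈ U := (hTU.symm ▸ hr : r ∈ U ∩ T).1
        exact h11 r hr hrU (c10 r hr hrU)

end basics

section KA

variable {E : Type} [Monoid E] {n : ℕ} (K : Set ((Fin n × (SP E)ᵐᵒᵖ) × (Fin n × (SP E)ᵐᵒᵖ)))

/-- the pairs both of whose second components are the identity -/
def KA : Set ((Fin n × (SP E)ᵐᵒᵖ) × (Fin n × (SP E)ᵐᵒᵖ)) :=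
  {k | k ∈ K ∧ k.1.2.unop.elt = 1 ∧ k.2.2.unop.elt = 1}

theorem KA_sub {p q : Fin n × (SP E)ᵐᵒᵖ} (h : ActGen (KA K) p q) : ActGen K p q := by
  refine ActGen.map (ActGen.equivalence K) id ?_ h
  intro p q hpq s
  exact ActGen.smul s _ _ (ActGen.base _ _ hpq.1)

theorem KA_elt {p q : Fin n × (SP E)ᵐᵒᵖ} (h : ActGen (KA K) p q) :
    p.2.unop.elt = q.2.unop.elt := by
  refine ActGen.map (S := (SP E)ᵐᵒᵖ) (n := n) (m := n)
    (R := fun p q : Fin n × (SP E)ᵐᵒᵖ => p.2.unop.elt = q.2.unop.elt)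
    ⟨fun _ => rfl, fun h => Eq.symm h, fun h1 h2 => Eq.trans h1 h2⟩ id ?_ h
  rintro p q hpq s
  obtain ⟨_, a1, a2⟩ := hpq
  dsimp only [id] at a1 a2 ⊢
  rw [unop_mul, unop_mul, SP.mul_elt, SP.mul_elt, a1, a2]

/-- replace the second component by the identity -/
def lv1 (p : Fin n × (SP E)ᵐᵒᵖ) : Fin n × (SP E)ᵐᵒᵖ := (p.1, op ⟨p.2.unop.set, 1⟩)

theorem step_form {p : Fin n × (SP E)ᵐᵒᵖ} (hp : p.2.unop.elt = 1) (X : Set E) (x : E) :
    (p.1, (op (⟨X, x⟩ : SP E)) * p.2) = el p.1 (p.2.unop.set ∪ X) x := by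
  have : p.2 = op ⟨p.2.unop.set, 1⟩ := by
    rw [← hp]
    rfl
  rw [this, mul_op, lm_one, one_mul]
  rfl

theorem KA_lv1 {p q : Fin n × (SP E)ᵐᵒᵖ} (h : ActGen (KA K) p q) :
    ActGen (KA K) (lv1 p) (lv1 q) := by
  refine ActGen.map (ActGen.equivalence _) lv1 ?_ h
  rintro p q hpq s
  obtain ⟨s⟩ := s
  obtain ⟨X, x⟩ := s
  obtain ⟨a0, a1, a2⟩ := hpq
  dsimp only at a1 a2
  have e1 : (p.1, (op (⟨X, x⟩ : SP E)) * p.2) = el p.1 (p.2.unop.set ∪ X) x := step_form a1 X x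
  have e2 : (q.1, (op (⟨X, x⟩ : SP E)) * q.2) = el q.1 (q.2.unop.set ∪ X) x := step_form a2 X x
  change ActGen (KA K) (lv1 (p.1, (op (⟨X, x⟩ : SP E)) * p.2))
    (lv1 (q.1, (op (⟨X, x⟩ : SP E)) * q.2))
  rw [e1, e2]
  have := ActGen.smul (op (⟨X, 1⟩ : SP E)) _ _ (ActGen.base (K := KA K) p q ⟨a0, a1, a2⟩)
  rw [step_form a1, step_form a2] at this
  exact this

variable {ι : Type} (τ : E → ι)

/-- action of the uniformisation on the free act -/
noncomputable def PhiA (r : E) (p : Fin n × (SP E)ᵐᵒᵖ) : Fin n × (SP E)ᵐᵒᵖ :=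
  (p.1, op ⟨Phi τ r p.2.unop.set, p.2.unop.elt⟩)

theorem KA_PhiA (r : E)
    (hK : ∀ k ∈ KA K, Unif τ (τ r) k.1.2.unop.set ∧ Unif τ (τ r) k.2.2.unop.set)
    {p q : Fin n × (SP E)ᵐᵒᵖ} (h : ActGen (KA K) p q) :
    ActGen (KA K) (PhiA τ r p) (PhiA τ r q) := by
  refine ActGen.map (ActGen.equivalence _) (PhiA τ r) ?_ h
  rintro p q hpq s
  obtain ⟨s⟩ := s
  obtain ⟨X, x⟩ := s
  obtain ⟨u1, u2⟩ := hK _ hpq
  obtain ⟨a0, a1, a2⟩ := hpq
  dsimp only at a1 a2 u1 u2
  change ActGen (KA K) (PhiA τ r (p.1, (op (⟨X, x⟩ : SP E)) * p.2))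
    (PhiA τ r (q.1, (op (⟨X, x⟩ : SP E)) * q.2))
  rw [step_form a1, step_form a2]
  have := ActGen.smul (op (⟨Phi τ r X, x⟩ : SP E)) _ _
    (ActGen.base (K := KA K) p q ⟨a0, a1, a2⟩)
  rw [step_form a1, step_form a2] at this
  unfold PhiA
  dsimp only [el, unop_op]
  rw [Phi_union, Phi_union, Phi_fix τ u1, Phi_fix τ u2]
  exact this

end KA

end X193.COH.Idl
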