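import Pool.Agent.X193.COH.Idl

namespace X193.COH.Idl

open MulOpposite X193.COH

section kap

variable {E : Type} [Monoid E] {n m : ℕ}
  (K : Set ((Fin n × (SP E)ᵐᵒᵖ) × (Fin n × (SP E)ᵐᵒᵖ))) (c : Fin m → Fin n × (SP E)ᵐᵒᵖ)

/-- the image of an element of the free act on the generators `c` -/
def im (p : Fin m × (SP E)ᵐᵒᵖ) : Fin n × (SP E)ᵐᵒᵖ := ((c p.1).1, p.2 * (c p.1).2)

/-- the pulled back congruence -/
def kap (p q : Fin m × (SP E)ᵐᵒᵖ) : Prop := ActGen K (im c p) (im c q)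

theorem kap_equiv : Equivalence (kap K c) :=
  ⟨fun _ => ActGen.refl _, fun h => ActGen.symm _ _ h, fun h1 h2 => ActGen.trans _ _ _ h1 h2⟩

theorem kap_smul (s : (SP E)ᵐᵒᵖ) {p q : Fin m × (SP E)ᵐᵒᵖ} (h : kap K c p q) :
    kap K c (p.1, s * p.2) (q.1, s * q.2) := by
  have := ActGen.smul s _ _ h
  unfold im at this
  dsimp only at this
  rw [← mul_assoc, ← mul_assoc] at this
  exact this

/-- the generating set attached to a set `G` -/
def Kg (G : Set (Fin m × (SP E)ᵐᵒᵖ)) : Set ((Fin m × (SP E)ᵐᵒᵖ) × (Fin m × (SP E)ᵐᵒᵖ)) :=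
  {x | kap K c x.1 x.2 ∧ x.1 ∈ G ∧ x.2 ∈ G}

theorem Kg_finite {G : Set (Fin m × (SP E)ᵐᵒᵖ)} (hG : G.Finite) : (Kg K c G).Finite := by
  refine Set.Finite.subset (hG.prod hG) ?_
  rintro ⟨p, q⟩ ⟨_, h1, h2⟩
  exact ⟨h1, h2⟩

theorem Kg_kap {G : Set (Fin m × (SP E)ᵐᵒᵖ)} {p q : Fin m × (SP E)ᵐᵒᵖ}
    (h : ActGen (Kg K c G) p q) : kap K c p q := by
  refine ActGen.map (kap_equiv K c) id ?_ h
  intro p q hpq s
  exact kap_smul K c s hpq.1

variable {ι : Type} (τ : E → ι)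

theorem im_el {k : Fin m} (hk : (c k).2.unop.elt = 1) (U : Set E) (u : E) :
    im c (el k U u) = el (c k).1 ((c k).2.unop.set ∪ U) u := step_form hk U u

theorem stepA {G : Set (Fin m × (SP E)ᵐᵒᵖ)}
    (hG : ∀ k : Fin m, ∀ U ∈ Uset τ, el k U 1 ∈ G)
    (hK : ∀ x ∈ KA K, ∀ t, Unif τ t x.1.2.unop.set ∧ Unif τ t x.2.2.unop.set)
    (hc : ∀ i, ∀ t, Unif τ t (c i).2.unop.set)
    {k l : Fin m} (hk : (c k).2.unop.elt = 1) (hl : (c l).2.unop.elt = 1) (𝒯 : Finset ι) :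
    ∀ (U V : Set E), (∀ t ∉ 𝒯, Unif τ t U ∧ Unif τ t V) →
      ActGen (KA K) (im c (el k U 1)) (im c (el l V 1)) →
      ActGen (Kg K c G) (el k U 1) (el l V 1) := by
  classical
  induction 𝒯 using Finset.induction_on with
  | empty =>
    intro U V hUV h
    refine ActGen.base _ _ ⟨KA_sub K h, hG k U ?_, hG l V ?_⟩
    · intro t; exact (hUV t (by simp)).1
    · intro t; exact (hUV t (by simp)).2
  | insert t 𝒯 ht ih =>
    intro U V hUV h
    by_cases hun : Unif τ t U ∧ Unif τ t V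
    · refine ih U V ?_ h
      intro t' ht'
      by_cases htt : t' = t
      · rw [htt]; exact hun
      · exact hUV t' (by
          rw [Finset.mem_insert]
          push Not
          exact ⟨htt, ht'⟩)
    · let T : Set E := {x | τ x = t}
      have hTne : T.Nonempty := by
        by_contra hne
        rw [Set.not_nonempty_iff_eq_empty] at hne
        apply hun
        have hall : ∀ D : Set E, Unif τ t D := by
          intro D x y hx hy
          have : x ∈ T := hx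
          rw [hne] at this
          exact absurd this (by simp)
        exact ⟨hall U, hall V⟩
      refine mixing hTne ?_
      intro r hr A B hA1 hA0 hB1 hB0
      have hr' : τ r = t := hr
      have e : ∀ (X C : Set E), (r ∈ X → C = T) → (r ∉ X → C = ∅) → X \ T ∪ C = Phi τ r X := by
        intro X C hC1 hC0
        ext x
        by_cases hx : τ x = τ r
        · have hxT : x ∈ T := hx.trans hr'
          rw [mem_Phi_of_eq τ hx]
          constructor
          · rintro (h' | h')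
            · exact absurd hxT h'.2
            · by_contra hrX
              rw [hC0 hrX] at h'
              exact h'
          · intro hrX
            right
            rw [hC1 hrX]
            exact hxT
        · have hxT : x ∉ T := fun h' => hx (Eq.trans h' hr'.symm)
          rw [mem_Phi_of_ne τ hx]
          constructor
          · rintro (h' | h')
            · exact h'.1
            · exfalso
              by_cases hrX : r ∈ X
              · rw [hC1 hrX] at h'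
                exact hxT h'
              · rw [hC0 hrX] at h'
                exact h'
          · intro hx'
            exact Or.inl ⟨hx', hxT⟩
      rw [e U A hA1 hA0, e V B hB1 hB0]
      refine ih _ _ ?_ ?_
      · intro t' ht'
        by_cases htt : t' = t
        · rw [htt, ← hr']
          exact ⟨Phi_unif τ r U, Phi_unif τ r V⟩
        · have := hUV t' (by
            rw [Finset.mem_insert]
            push Not
            exact ⟨htt, ht'⟩)
          exact ⟨Phi_unif' τ this.1, Phi_unif' τ this.2⟩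
      · have h2 := KA_PhiA K τ r (fun k hk => hK k hk _) h
        rw [im_el c hk, im_el c hl] at h2
        unfold PhiA at h2
        dsimp only [el, unop_op] at h2
        rw [Phi_union, Phi_union, Phi_fix τ (hc k _), Phi_fix τ (hc l _)] at h2
        rw [im_el c hk, im_el c hl]
        exact h2

theorem lemA {G : Set (Fin m × (SP E)ᵐᵒᵖ)} [Finite ι]
    (hG : ∀ k : Fin m, ∀ U ∈ Uset τ, el k U 1 ∈ G)
    (hK : ∀ x ∈ KA K, ∀ t, Unif τ t x.1.2.unop.set ∧ Unif τ t x.2.2.unop.set)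
    (hc : ∀ i, ∀ t, Unif τ t (c i).2.unop.set)
    {k l : Fin m} (hk : (c k).2.unop.elt = 1) (hl : (c l).2.unop.elt = 1)
    {U V : Set E} {u v : E}
    (h : ActGen (KA K) (im c (el k U u)) (im c (el l V v))) :
    ActGen (Kg K c G) (el k U u) (el l V v) := by
  have : Fintype ι := Fintype.ofFinite _
  have h1 := KA_elt K h
  rw [im_el c hk, im_el c hl] at h1
  have huv : u = v := h1
  subst huv
  have h2 := KA_lv1 K h
  rw [im_el c hk, im_el c hl] at h2
  apply mul_level u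
  refine stepA K c τ hG hK hc hk hl Finset.univ U V (fun t ht => absurd (Finset.mem_univ t) ht) ?_
  rw [im_el c hk, im_el c hl]
  exact h2

theorem lemB (hK : ∀ x ∈ KA K, ∀ t, Unif τ t x.1.2.unop.set ∧ Unif τ t x.2.2.unop.set)
    {i j : Fin n} {D F : Set E} (hD : ∀ t, Unif τ t D) (hF : ∀ t, Unif τ t F) (𝒯 : Finset ι) :
    ∀ (U X : Set E), (∀ t ∉ 𝒯, Unif τ t U) →
      ActGen (KA K) (el i (D ∪ U) 1) (el j (F ∪ X) 1) →
      ∃ U0 : Set E, U0 ⊆ U ∧ U0 ∈ Uset τ ∧ ∃ X0 : Set E,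
        ActGen (KA K) (el i (D ∪ U0) 1) (el j (F ∪ X0) 1) := by
  classical
  induction 𝒯 using Finset.induction_on with
  | empty =>
    intro U X hU h
    exact ⟨U, subset_rfl, fun t => hU t (by simp), X, h⟩
  | insert t 𝒯 ht ih =>
    intro U X hU h
    by_cases hun : Unif τ t U
    · refine ih U X ?_ h
      intro t' ht'
      by_cases htt : t' = t
      · rw [htt]; exact hun
      · exact hU t' (by
          rw [Finset.mem_insert]
          push Not
          exact ⟨htt, ht'⟩)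
    · have hr : ∃ r, τ r = t ∧ r ∉ U := by
        by_contra hcon
        push Not at hcon
        exact hun (fun x y hx hy => ⟨fun _ => hcon y hy, fun _ => hcon x hx⟩)
      obtain ⟨r, hrt, hrU⟩ := hr
      have h2 := KA_PhiA K τ r (fun k hk => hK k hk _) h
      unfold PhiA at h2
      dsimp only [el, unop_op] at h2
      rw [Phi_union, Phi_union, Phi_fix τ (hD _), Phi_fix τ (hF _)] at h2
      obtain ⟨U0, hU0, hU0', X0, hX0⟩ := ih (Phi τ r U) (Phi τ r X) (by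
        intro t' ht'
        by_cases htt : t' = t
        · rw [htt, ← hrt]
          exact Phi_unif τ r U
        · exact Phi_unif' τ (hU t' (by
            rw [Finset.mem_insert]
            push Not
            exact ⟨htt, ht'⟩))) h2
      refine ⟨U0, hU0.trans ?_, hU0', X0, hX0⟩
      intro x hx
      by_cases hxr : τ x = τ r
      · rw [mem_Phi_of_eq τ hxr] at hx
        exact absurd hx hrU
      · rwa [mem_Phi_of_ne τ hxr] at hx

end kap

theorem rightCoherent_of {E : Type} [Monoid E] (e : E) (he1 : e ≠ 1)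
    (hiso : ∀ f g : E, f * g = 1 → f = 1) (hid : ∀ f : E, f ≠ 1 → f * e = f)
    (hfin : (Set.range (fun g : E => e * g)).Finite) : RightCoherent (SP E) := by
  classical
  refine leftCoherent_of ?_
  intro n m K hK c
  let comps : Set (Fin n × (SP E)ᵐᵒᵖ) := (Prod.fst '' K ∪ Prod.snd '' K) ∪ Set.range c
  have hcomps : comps.Finite := ((hK.image _).union (hK.image _)).union (Set.finite_range c)
  have hcK1 : ∀ k ∈ K, k.1 ∈ comps := fun k hk => Or.inl (Or.inl ⟨k, hk, rfl⟩)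
  have hcK2 : ∀ k ∈ K, k.2 ∈ comps := fun k hk => Or.inl (Or.inr ⟨k, hk, rfl⟩)
  have hcc : ∀ i, c i ∈ comps := fun i => Or.inr ⟨i, rfl⟩
  let 𝒟 : Set (Set E) := (fun p : Fin n × (SP E)ᵐᵒᵖ => p.2.unop.set) '' comps
  have h𝒟 : 𝒟.Finite := hcomps.image _
  have : Finite 𝒟 := h𝒟
  let τ : E → Set 𝒟 := fun x => {D | x ∈ D.1}
  have : Fintype (Set 𝒟) := Fintype.ofFinite _
  have hUnif : ∀ p ∈ comps, ∀ t, Unif τ t p.2.unop.set := by
    intro p hp t x y hx hy
    have hD : p.2.unop.set ∈ 𝒟 := ⟨p, hp, rfl⟩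
    have h1 : ({D | x ∈ D.1} : Set 𝒟) = {D | y ∈ D.1} := hx.trans hy.symm
    constructor
    · intro h
      have h2 : (⟨_, hD⟩ : 𝒟) ∈ ({D | x ∈ D.1} : Set 𝒟) := h
      rw [h1] at h2
      exact h2
    · intro h
      have h2 : (⟨_, hD⟩ : 𝒟) ∈ ({D | y ∈ D.1} : Set 𝒟) := h
      rw [← h1] at h2
      exact h2
  have hKA : ∀ x ∈ KA K, ∀ t, Unif τ t x.1.2.unop.set ∧ Unif τ t x.2.2.unop.set :=
    fun x hx t => ⟨hUnif _ (hcK1 x hx.1) t, hUnif _ (hcK2 x hx.1) t⟩
  have hcU : ∀ i, ∀ t, Unif τ t (c i).2.unop.set := fun i => hUnif _ (hcc i)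
  -- the right identity of the ideal
  let ε : (SP E)ᵐᵒᵖ := op ⟨∅, e⟩
  have hJ : ∀ x : (SP E)ᵐᵒᵖ, x.unop.elt ≠ 1 → ε * x = x := by
    intro x hx
    obtain ⟨x⟩ := x
    obtain ⟨X, x⟩ := x
    change (op (⟨∅, e⟩ : SP E)) * (op (⟨X, x⟩ : SP E)) = op ⟨X, x⟩
    rw [mul_op, lm_empty, Set.union_empty, hid x hx]
  have hεε : ε * ε = ε := hJ ε he1
  let Θ : Set (SP E)ᵐᵒᵖ := {θ | ∃ t, θ = t * ε}
  have hΘ : Θ.Finite := by
    refine Set.Finite.subset ((hfin.finite_subsets.prod hfin).image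
      (fun x : Set E × E => (op ⟨x.1, x.2⟩ : (SP E)ᵐᵒᵖ))) ?_
    rintro _ ⟨⟨⟨Y, g⟩⟩, rfl⟩
    refine ⟨(lm e Y, e * g), ⟨?_, ⟨g, rfl⟩⟩, ?_⟩
    · rintro x ⟨y, _, rfl⟩
      exact ⟨y, rfl⟩
    · change op (⟨lm e Y, e * g⟩ : SP E) = (op (⟨Y, g⟩ : SP E)) * (op (⟨∅, e⟩ : SP E))
      rw [mul_op, Set.empty_union]
  -- the finite set of hubs
  let H : Set (Fin n × (SP E)ᵐᵒᵖ) :=
    {x | ∃ q ∈ comps, q.2.unop.elt ≠ 1 ∧ ∃ t, x = (q.1, t * q.2)}
  have hH : H.Finite := by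
    refine Set.Finite.subset ((hcomps.prod hΘ).image
      (fun x : (Fin n × (SP E)ᵐᵒᵖ) × (SP E)ᵐᵒᵖ => ((x.1.1, x.2 * x.1.2) :
        Fin n × (SP E)ᵐᵒᵖ))) ?_
    rintro _ ⟨q, hq, hq1, t, rfl⟩
    refine ⟨(q, t * ε), ⟨hq, t, rfl⟩, ?_⟩
    dsimp only
    rw [mul_assoc, hJ _ hq1]
  have hHε : ∀ h ∈ H, ε * h.2 = h.2 := by
    rintro _ ⟨q, hq, hq1, t, rfl⟩
    apply hJ
    intro h
    rw [unop_mul, SP.mul_elt] at h
    exact hq1 (hiso _ _ h)
  let Hit : Fin n × (SP E)ᵐᵒᵖ → Prop := fun x =>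
    (∃ h ∈ H, ActGen (KA K) x h) ∨
    (∃ a b : Fin n × (SP E)ᵐᵒᵖ, ((a, b) ∈ K ∨ (b, a) ∈ K) ∧ a.2.unop.elt = 1 ∧
      b.2.unop.elt ≠ 1 ∧ ∃ s : (SP E)ᵐᵒᵖ, ActGen (KA K) x (a.1, s * a.2))
  have Hit_trans : ∀ x y, ActGen (KA K) x y → Hit y → Hit x := by
    intro x y hxy hy
    rcases hy with ⟨h, hh, hy⟩ | ⟨a, b, hab, ha, hb, s, hs⟩
    · exact Or.inl ⟨h, hh, hxy.trans _ _ _ hy⟩
    · exact Or.inr ⟨a, b, hab, ha, hb, s, hxy.trans _ _ _ hs⟩
  have HitH : ∀ x ∈ H, Hit x := fun x hx => Or.inl ⟨x, hx, ActGen.refl _⟩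
  have hR : ∀ x y, ActGen K x y → ActGen (KA K) x y ∨ (Hit x ∧ Hit y) := by
    intro x y hxy
    refine ActGen.map (S := (SP E)ᵐᵒᵖ) (n := n) (m := n)
      (R := fun x y => ActGen (KA K) x y ∨ (Hit x ∧ Hit y)) ⟨?_, ?_, ?_⟩ id ?_ hxy
    · intro x; exact Or.inl (ActGen.refl _)
    · rintro x y (h | h)
      · exact Or.inl h.symm
      · exact Or.inr h.symm
    · rintro x y z (h1 | h1) (h2 | h2)
      · exact Or.inl (h1.trans _ _ _ h2)
      · exact Or.inr ⟨Hit_trans _ _ h1 h2.1, h2.2⟩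
      · exact Or.inr ⟨h1.1, Hit_trans _ _ h2.symm h1.2⟩
      · exact Or.inr ⟨h1.1, h2.2⟩
    · intro p q hpq s
      dsimp only [id]
      by_cases hp : p.2.unop.elt = 1
      · by_cases hq : q.2.unop.elt = 1
        · exact Or.inl (ActGen.smul s _ _ (ActGen.base _ _ ⟨hpq, hp, hq⟩))
        · refine Or.inr ⟨Or.inr ⟨p, q, Or.inl hpq, hp, hq, s, ActGen.refl _⟩,
            HitH _ ⟨q, hcK2 _ hpq, hq, s, rfl⟩⟩
      · by_cases hq : q.2.unop.elt = 1
        · refine Or.inr ⟨HitH _ ⟨p, hcK1 _ hpq, hp, s, rfl⟩,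
            Or.inr ⟨q, p, Or.inr hpq, hq, hp, s, ActGen.refl _⟩⟩
        · exact Or.inr ⟨HitH _ ⟨p, hcK1 _ hpq, hp, s, rfl⟩,
            HitH _ ⟨q, hcK2 _ hpq, hq, s, rfl⟩⟩
  -- the finite set of representatives
  have hex : ∀ h : Fin n × (SP E)ᵐᵒᵖ, ∃ p : Option (Fin m × (SP E)ᵐᵒᵖ),
      ∀ p', (c p'.1).2.unop.elt = 1 → ActGen (KA K) (im c p') h →
        ∃ p0, p = some p0 ∧ (c p0.1).2.unop.elt = 1 ∧ ActGen (KA K) (im c p0) h := by
    intro h
    by_cases hh : ∃ p', (c p'.1).2.unop.elt = 1 ∧ ActGen (KA K) (im c p') h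
    · obtain ⟨p', h1, h2⟩ := hh
      exact ⟨some p', fun _ _ _ => ⟨p', rfl, h1, h2⟩⟩
    · push Not at hh
      exact ⟨none, fun p' h1 h2 => absurd h2 (hh p' h1)⟩
  choose ph hph using hex
  let G1 : Set (Fin m × (SP E)ᵐᵒᵖ) :=
    (fun x : Fin m × (Set E × E) => (el x.1 x.2.1 x.2.2 : Fin m × (SP E)ᵐᵒᵖ)) ''
      (Set.univ ×ˢ (Uset τ ×ˢ {1, e}))
  let G2 : Set (Fin m × (SP E)ᵐᵒᵖ) :=
    (fun x : (Fin m × Set E) × (SP E)ᵐᵒᵖ => ((x.1.1, x.2 * op ⟨x.1.2, e⟩) :
      Fin m × (SP E)ᵐᵒᵖ)) '' ((Set.univ ×ˢ Uset τ) ×ˢ Θ)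
  let G3 : Set (Fin m × (SP E)ᵐᵒᵖ) := {p | some p ∈ ph '' H}
  have hG1 : G1.Finite :=
    ((Set.finite_univ).prod ((Uset_finite τ).prod (Set.toFinite _))).image _
  have hG2 : G2.Finite := (((Set.finite_univ).prod (Uset_finite τ)).prod hΘ).image _
  have hG3 : G3.Finite :=
    Set.Finite.preimage ((Option.some_injective _).injOn) (hH.image ph)
  let G : Set (Fin m × (SP E)ᵐᵒᵖ) := G1 ∪ G2 ∪ G3
  have hG : G.Finite := (hG1.union hG2).union hG3
  have hGU : ∀ k : Fin m, ∀ U ∈ Uset τ, (el k U 1 : Fin m × (SP E)ᵐᵒᵖ) ∈ G := by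
    intro k U hU
    exact Or.inl (Or.inl ⟨(k, (U, 1)), ⟨Set.mem_univ _, hU, Or.inl rfl⟩, rfl⟩)
  have hGe : ∀ k : Fin m, ∀ U ∈ Uset τ, (el k U e : Fin m × (SP E)ᵐᵒᵖ) ∈ G := by
    intro k U hU
    exact Or.inl (Or.inl ⟨(k, (U, e)), ⟨Set.mem_univ _, hU, Or.inr rfl⟩, rfl⟩)
  have hG2' : ∀ (k : Fin m) (U : Set E), U ∈ Uset τ → ∀ t : (SP E)ᵐᵒᵖ,
      ((k, t * ε * op ⟨U, e⟩) : Fin m × (SP E)ᵐᵒᵖ) ∈ G := by
    intro k U hU t
    exact Or.inl (Or.inr ⟨((k, U), t * ε), ⟨⟨Set.mem_univ _, hU⟩, t, rfl⟩, rfl⟩)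
  have hemp : (∅ : Set E) ∈ Uset τ := fun t x y _ _ => Iff.rfl
  have lA : ∀ (k l : Fin m), (c k).2.unop.elt = 1 → (c l).2.unop.elt = 1 →
      ∀ (s t : (SP E)ᵐᵒᵖ), ActGen (KA K) (im c (k, s)) (im c (l, t)) →
        ActGen (Kg K c G) (k, s) (l, t) := by
    intro k l hk hl s t h
    obtain ⟨⟨U, u⟩⟩ := s
    obtain ⟨⟨V, v⟩⟩ := t
    exact lemA K c τ hGU hKA hcU hk hl h
  -- elements which hit are related to elements of `G`
  have lC : ∀ p : Fin m × (SP E)ᵐᵒᵖ, Hit (im c p) → ∃ g ∈ G, ActGen (Kg K c G) p g := by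
    rintro ⟨k, s⟩ hp
    by_cases hk : (c k).2.unop.elt = 1
    · rcases hp with ⟨h, hh, hx⟩ | ⟨a, b, hab, ha, hb, s', hs⟩
      · obtain ⟨p0, hp0, hp1, hp2⟩ := hph h (k, s) hk hx
        refine ⟨p0, Or.inr ⟨h, hh, hp0⟩, ?_⟩
        exact lA k p0.1 hk hp1 s p0.2 (hx.trans _ _ _ hp2.symm)
      · obtain ⟨⟨U, u⟩⟩ := s
        obtain ⟨⟨X, x⟩⟩ := s'
        have h1 : ActGen (KA K) (im c (el k U u)) (a.1, (op (⟨X, x⟩ : SP E)) * a.2) := hs
        rw [step_form ha, im_el c hk] at h1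
        have h2 := KA_lv1 K h1
        have haU : ∀ t, Unif τ t a.2.unop.set := by
          rcases hab with hab | hab
          · exact hUnif _ (hcK1 _ hab)
          · exact hUnif _ (hcK2 _ hab)
        obtain ⟨U0, hU0, hU0', X0, hX0⟩ := lemB K τ hKA (hcU k) haU Finset.univ U X
          (fun t ht => absurd (Finset.mem_univ t) ht) h2
        rw [← im_el c hk, ← step_form ha] at hX0
        -- relation to the hub
        have h3 : ActGen K (im c (el k U0 1)) (b.1, (op (⟨X0, 1⟩ : SP E)) * b.2) := by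
          refine (KA_sub K hX0).trans _ _ _ ?_
          rcases hab with hab | hab
          · exact ActGen.smul _ _ _ (ActGen.base _ _ hab)
          · exact (ActGen.smul _ _ _ (ActGen.base _ _ hab)).symm
        have hbH : (b.1, (op (⟨X0, 1⟩ : SP E)) * b.2) ∈ H := by
          rcases hab with hab | hab
          · exact ⟨b, hcK2 _ hab, hb, _, rfl⟩
          · exact ⟨b, hcK1 _ hab, hb, _, rfl⟩
        have h4 := ActGen.smul ε _ _ h3
        rw [hHε _ hbH] at h4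
        have h5 : kap K c (el k U0 1) (el k U0 e) := by
          have h6 := h3.trans _ _ _ h4.symm
          have e1 : (im c (el k U0 e) : Fin n × (SP E)ᵐᵒᵖ) =
              ((im c (el k U0 1)).1, ε * (im c (el k U0 1)).2) := by
            unfold im
            dsimp only [el]
            rw [← mul_assoc]
            change _ = ((c k).1, (op (⟨∅, e⟩ : SP E)) * (op (⟨U0, 1⟩ : SP E)) * (c k).2)
            rw [mul_op, lm_empty, Set.union_empty, one_mul]
          unfold kap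
          rw [e1]
          exact h6
        have h7 : ActGen (Kg K c G) (el k U0 1) (el k U0 e) :=
          ActGen.base _ _ ⟨h5, hGU k U0 hU0', hGe k U0 hU0'⟩
        have h8 := ActGen.smul (op (⟨U, u⟩ : SP E)) _ _ h7
        refine ⟨_, hG2' k U0 hU0' (op (⟨U, u⟩ : SP E)), ?_⟩
        have e2 : (op (⟨U, u⟩ : SP E)) * (op (⟨U0, 1⟩ : SP E)) = op ⟨U, u⟩ := by
          rw [mul_op, lm_one, one_mul, Set.union_eq_self_of_subset_left hU0]
        have e3 : (op (⟨U, u⟩ : SP E)) * ε * (op (⟨U0, e⟩ : SP E)) =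
            (op (⟨U, u⟩ : SP E)) * (op (⟨U0, e⟩ : SP E)) := by
          rw [mul_assoc, hJ (op (⟨U0, e⟩ : SP E)) he1]
        dsimp only at h8
        rw [e2] at h8
        rw [e3]
        exact h8
    · refine ⟨(k, s * ε * ε), hG2' k ∅ hemp s, ?_⟩
      have h1 : kap K c (el k ∅ 1) (el k ∅ e) := by
        have e1 : (im c (el k ∅ e) : Fin n × (SP E)ᵐᵒᵖ) = im c (el k ∅ 1) := by
          unfold im
          dsimp only [el]
          change ((c k).1, ε * (c k).2) = ((c k).1, (1 : (SP E)ᵐᵒᵖ) * (c k).2)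
          rw [hJ _ hk, one_mul]
        unfold kap
        rw [e1]
        exact ActGen.refl _
      have h2 : ActGen (Kg K c G) (el k ∅ 1) (el k ∅ e) :=
        ActGen.base _ _ ⟨h1, hGU k ∅ hemp, hGe k ∅ hemp⟩
      have h3 := ActGen.smul s _ _ h2
      have e1 : s * (op (⟨∅, 1⟩ : SP E)) = s := mul_one s
      dsimp only at h3
      rw [e1] at h3
      rw [mul_assoc, hεε]
      exact h3
  have HitIm : ∀ p : Fin m × (SP E)ᵐᵒᵖ, (c p.1).2.unop.elt ≠ 1 → Hit (im c p) := by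
    intro p hp
    exact HitH _ ⟨c p.1, hcc _, hp, p.2, rfl⟩
  refine ⟨Kg K c G, Kg_finite K c hG, ?_⟩
  intro p q
  change kap K c p q ↔ _
  constructor
  · intro h
    have hboth : (Hit (im c p) ∧ Hit (im c q)) → ActGen (Kg K c G) p q := by
      rintro ⟨h1, h2⟩
      obtain ⟨g, hg, hpg⟩ := lC p h1
      obtain ⟨g', hg', hqg⟩ := lC q h2
      have h3 : kap K c g g' :=
        (kap_equiv K c).trans ((kap_equiv K c).trans ((kap_equiv K c).symm (Kg_kap K c hpg)) h)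
          (Kg_kap K c hqg)
      exact (hpg.trans _ _ _ (ActGen.base _ _ ⟨h3, hg, hg'⟩)).trans _ _ _ hqg.symm
    rcases hR _ _ h with h1 | h1
    · by_cases hp : (c p.1).2.unop.elt = 1
      · by_cases hq : (c q.1).2.unop.elt = 1
        · exact lA p.1 q.1 hp hq p.2 q.2 h1
        · have h2 := HitIm q hq
          exact hboth ⟨Hit_trans _ _ h1 h2, h2⟩
      · have h2 := HitIm p hp
        exact hboth ⟨h2, Hit_trans _ _ h1.symm h2⟩
    · exact hboth h1
  · intro h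
    exact Kg_kap K c h

end X193.COH.Idl
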