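import Pool.Agent.X193.COH.Defs

namespace X193.COH

/-- If the principal left ideal generated by `a` is finitely presented then the left annihilator
congruence of `a` is controlled by finitely many pairs. -/
theorem exists_finite_annihilator {S : Type} [Monoid S] (hS : LeftCoherent S) (a : S) :
    ∃ K1 : Set (S × S), K1.Finite ∧ (∀ k ∈ K1, k.1 * a = k.2 * a) ∧
      ∀ P : S → Prop, (∀ k ∈ K1, ∀ w : S, P (w * k.1) ↔ P (w * k.2)) →
        ∀ u v : S, u * a = v * a → (P u ↔ P v) := by
  have hA : FinPres S S := by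
    refine ⟨1, fun _ => 1, ∅, Set.finite_empty, ?_, ?_⟩
    · intro x
      exact ⟨0, x, by simp⟩
    · rintro ⟨i, s⟩ ⟨j, t⟩
      have hij : i = j := Subsingleton.elim _ _
      subst hij
      constructor
      · intro h
        have h' : s = t := by simpa using h
        subst h'
        exact ActGen.refl _
      · intro h
        have := ActGen.one_n h
        rw [this]
  let B : SubMulAction S S :=
    { carrier := {x | ∃ s : S, s * a = x}
      smul_mem' := by
        rintro c x ⟨s, rfl⟩
        exact ⟨c * s, by simp [mul_assoc]⟩ }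
  have hB : ∀ x : S, x ∈ B ↔ ∃ s : S, s * a = x := fun x => Iff.rfl
  obtain ⟨n, c, K0, hK0, hgen, hker⟩ := hS S hA B ⟨1, fun _ => a, by
    intro x
    rw [hB]
    constructor
    · rintro ⟨s, h⟩; exact ⟨0, s, h⟩
    · rintro ⟨_, s, h⟩; exact ⟨s, h⟩⟩
  have hs : ∀ i, ∃ s : S, s * a = (c i : S) := fun i => (hB _).mp (c i).2
  choose σ hσ using hs
  have haB : a ∈ B := (hB a).mpr ⟨1, one_mul a⟩
  obtain ⟨i0, t0, h0⟩ := hgen ⟨a, haB⟩
  have h0' : t0 * (c i0 : S) = a := congrArg Subtype.val h0
  refine ⟨(fun k : (Fin n × S) × (Fin n × S) => (k.1.2 * σ k.1.1, k.2.2 * σ k.2.1)) '' K0 ∪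
    {(1, t0 * σ i0)}, (hK0.image _).union (Set.finite_singleton _), ?_, ?_⟩
  · rintro k (⟨⟨⟨i, s⟩, ⟨j, t⟩⟩, hk, rfl⟩ | hk)
    · have := (hker (i, s) (j, t)).mpr (ActGen.base _ _ hk)
      have h2 : s * (c i : S) = t * (c j : S) := congrArg Subtype.val this
      dsimp only
      rw [mul_assoc, hσ, mul_assoc, hσ, h2]
    · rw [Set.mem_singleton_iff] at hk
      subst hk
      dsimp only
      rw [mul_assoc, hσ, h0', one_mul]
  · intro P hP u v huv
    have key : ∀ p q : Fin n × S, ActGen K0 p q → (P (p.2 * σ p.1) ↔ P (q.2 * σ q.1)) := by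
      intro p q h
      refine ActGen.map (R := fun p q : Fin n × S => (P (p.2 * σ p.1) ↔ P (q.2 * σ q.1)))
        ⟨fun _ => Iff.rfl, fun h => h.symm, fun h1 h2 => h1.trans h2⟩ id ?_ h
      intro p q hpq s
      have := hP _ (Or.inl ⟨(p, q), hpq, rfl⟩) s
      dsimp only [id] at this ⊢
      rw [mul_assoc, mul_assoc]
      exact this
    have h1 := hP _ (Or.inr (Set.mem_singleton _)) u
    have h2 := hP _ (Or.inr (Set.mem_singleton _)) v
    dsimp only at h1 h2
    rw [mul_one] at h1 h2
    rw [h1, h2]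
    have h3 : ActGen K0 (i0, u * t0) (i0, v * t0) := by
      rw [← hker]
      apply Subtype.ext
      change (u * t0) * (c i0 : S) = (v * t0) * (c i0 : S)
      rw [mul_assoc, h0', mul_assoc, h0', huv]
    have h4 := key _ _ h3
    dsimp only at h4
    rw [mul_assoc, mul_assoc] at h4
    exact h4

theorem not_leftCoherent : ¬ LeftCoherent (SP RZ) := by
  intro hS
  obtain ⟨K1, hfin, hK1, hP⟩ := exists_finite_annihilator hS (⟨{1}, RZ.r 0⟩ : SP RZ)
  -- the finite set of all components
  let C : Set (SP RZ) := Prod.fst '' K1 ∪ Prod.snd '' K1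
  have hC : C.Finite := (hfin.image _).union (hfin.image _)
  let Bad : Set RZ := (SP.elt '' C) ∪ (⋃ k ∈ {k ∈ C | k.set.Finite}, k.set) ∪ {1}
  have hBad : Bad.Finite := by
    refine ((hC.image _).union ?_).union (Set.finite_singleton _)
    exact Set.Finite.biUnion (hC.subset (Set.sep_subset _ _)) (fun k hk => hk.2)
  have hinf : (Set.univ : Set RZ).Infinite := by
    rw [Set.infinite_univ_iff]
    exact Infinite.of_injective RZ.r (fun a b h => by cases h; rfl)
  have : Infinite RZ := Set.infinite_univ_iff.mp hinf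
  obtain ⟨p, hp⟩ := hBad.exists_notMem
  obtain ⟨q, hq⟩ := (hBad.union (Set.finite_singleton p)).exists_notMem
  have hqp : q ≠ p := fun h => hq (Or.inr h)
  have hq' : q ∉ Bad := fun h => hq (Or.inl h)
  have hp1 : p ≠ 1 := fun h => hp (Or.inr h)
  have hq1 : q ≠ 1 := fun h => hq' (Or.inr h)
  have hpelt : ∀ k ∈ C, k.elt ≠ p := fun k hk h => hp (Or.inl (Or.inl ⟨k, hk, h⟩))
  have hsub : ∀ k ∈ C, k.set ⊆ {1, p, q} → p ∉ k.set ∧ q ∉ k.set := by
    intro k hk h
    have hf : k.set.Finite := Set.Finite.subset (by simp) h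
    have hb : k.set ⊆ Bad := by
      intro x hx
      exact Or.inl (Or.inr (Set.mem_biUnion (show k ∈ {k ∈ C | k.set.Finite} from ⟨hk, hf⟩) hx))
    exact ⟨fun h => hp (hb h), fun h => hq' (hb h)⟩
  let P : SP RZ → Prop := fun w => w.elt = p ∧ q ∈ w.set ∧ w.set ⊆ {p, q}
  -- one direction of the invariance
  have hone : ∀ k k' : SP RZ, k ∈ C → k * (⟨{1}, RZ.r 0⟩ : SP RZ) = k' * ⟨{1}, RZ.r 0⟩ →
      ∀ w : SP RZ, P (w * k) → P (w * k') := by
    intro k k' hk hkk w hw
    obtain ⟨h1, h2, h3⟩ := hw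
    rw [SP.mul_elt] at h1
    rw [SP.mul_set] at h2 h3
    have hke : k.elt = 1 := by
      by_contra hne
      rw [RZ.mul_ne_one hne] at h1
      exact hpelt k hk h1
    have hwe : w.elt = p := by
      rw [hke, mul_one] at h1
      exact h1
    have hks : k.set ⊆ {1} := by
      have hs : k.set ⊆ {1, p, q} := by
        intro x hx
        by_cases hx1 : x = 1
        · left; exact hx1
        · right
          exact h3 (Or.inr (RZ.mem_image.mpr (Or.inl ⟨hx1, hx⟩)))
      obtain ⟨hnp, hnq⟩ := hsub k hk hs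
      intro x hx
      rcases hs hx with h | h | h
      · exact h
      · exact absurd (h ▸ hx) hnp
      · exact absurd (h ▸ hx) hnq
    -- now the partner
    have hset : k.set ∪ (fun y => k.elt * y) '' {1} = k'.set ∪ (fun y => k'.elt * y) '' {1} :=
      congrArg SP.set hkk
    rw [Set.image_singleton, Set.image_singleton, mul_one, mul_one, hke] at hset
    have hk'e : k'.elt = 1 := by
      have : k'.elt ∈ k.set ∪ {1} := by rw [hset]; exact Or.inr rfl
      rcases this with h | h
      · exact hks h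
      · exact h
    have hk's : k'.set ⊆ {1} := by
      intro x hx
      have : x ∈ k.set ∪ {1} := by rw [hset]; exact Or.inl hx
      rcases this with h | h
      · exact hks h
      · exact h
    have hwq : q ∈ w.set ∧ w.set ⊆ {p, q} := by
      constructor
      · rcases h2 with h | h
        · exact h
        · rcases RZ.mem_image.mp h with ⟨_, h⟩ | ⟨h, _⟩
          · exact absurd (hks h) hq1
          · exact absurd (h.trans hwe) hqp
      · exact fun x hx => h3 (Or.inl hx)
    refine ⟨?_, ?_, ?_⟩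
    · rw [SP.mul_elt, hk'e, mul_one, hwe]
    · rw [SP.mul_set]
      exact Or.inl hwq.1
    · rw [SP.mul_set]
      rintro x (hx | hx)
      · exact hwq.2 hx
      · rcases RZ.mem_image.mp hx with ⟨hx1, h⟩ | ⟨h, _⟩
        · exact absurd (hk's h) hx1
        · left
          exact h.trans hwe
  have hinv : ∀ k ∈ K1, ∀ w : SP RZ, P (w * k.1) ↔ P (w * k.2) := by
    intro k hk w
    constructor
    · exact hone k.1 k.2 (Or.inl ⟨k, hk, rfl⟩) (hK1 k hk) w
    · exact hone k.2 k.1 (Or.inr ⟨k, hk, rfl⟩) (hK1 k hk).symm w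
  have hfinal := hP P hinv ⟨{q}, p⟩ ⟨{p}, q⟩ (by
    apply SP.ext
    · rw [SP.mul_set, SP.mul_set]
      dsimp only
      rw [Set.image_singleton, Set.image_singleton, mul_one, mul_one, Set.union_comm]
    · rfl)
  have := hfinal.mp ⟨rfl, rfl, by
    dsimp only
    intro x hx
    exact Or.inr hx⟩
  exact hqp this.1

end X193.COH
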