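import Pool.Agent.X193.COH.Left
import Pool.Agent.X193.COH.IdlMain

namespace X193.COH

open MulOpposite

/-- The infinite null semigroup `{n 0, n 1, ...}` (all products equal to `n 0`) with an identity
`one` adjoined. -/
inductive NU where
  | one : NU
  | n (k : ℕ) : NU

/-- multiplication in `NU` -/
def NU.mul : NU → NU → NU
  | NU.one, b => b
  | NU.n k, NU.one => NU.n k
  | NU.n _, NU.n _ => NU.n 0

instance : Monoid NU where
  mul := NU.mul
  one := NU.one
  mul_assoc a b c := by cases a <;> cases b <;> cases c <;> rfl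
  one_mul a := rfl
  mul_one a := by cases a <;> rfl

/-- `NU` with one more element `e`: `e e = e`, `e (n k) = n 0`, `(n k) e = n k`. -/
inductive NE where
  | one : NE
  | e : NE
  | n (k : ℕ) : NE

/-- multiplication in `NE` -/
def NE.mul : NE → NE → NE
  | NE.one, b => b
  | NE.e, NE.one => NE.e
  | NE.e, NE.e => NE.e
  | NE.e, NE.n _ => NE.n 0
  | NE.n k, NE.one => NE.n k
  | NE.n k, NE.e => NE.n k
  | NE.n _, NE.n _ => NE.n 0

instance : Monoid NE where
  mul := NE.mul
  one := NE.one
  mul_assoc a b c := by cases a <;> cases b <;> cases c <;> rfl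
  one_mul a := rfl
  mul_one a := by cases a <;> rfl

/-- the inclusion of `NU` into `NE` -/
def incl : NU →* NE where
  toFun x := match x with
    | NU.one => NE.one
    | NU.n k => NE.n k
  map_one' := rfl
  map_mul' a b := by cases a <;> cases b <;> rfl

theorem incl_injective : Function.Injective incl := by
  intro a b h
  cases a with
  | one =>
    cases b with
    | one => rfl
    | n k => exact absurd (show NE.one = NE.n k from h) (by intro h'; cases h')
  | n k =>
    cases b with
    | one => exact absurd (show NE.n k = NE.one from h) (by intro h'; cases h')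
    | n l =>
      have : NE.n k = NE.n l := h
      cases this
      rfl

/-- functoriality of `SP` -/
def SP.map {M N : Type} [Monoid M] [Monoid N] (f : M →* N) : SP M →* SP N where
  toFun a := ⟨f '' a.set, f a.elt⟩
  map_one' := by
    apply SP.ext
    · change f '' ∅ = ∅
      simp
    · exact map_one f
  map_mul' a b := by
    apply SP.ext
    · change f '' (a.set ∪ (fun y => a.elt * y) '' b.set) =
        f '' a.set ∪ (fun y => f a.elt * y) '' (f '' b.set)
      rw [Set.image_union, Set.image_image, Set.image_image]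
      simp
    · exact map_mul f _ _

theorem SP.map_injective {M N : Type} [Monoid M] [Monoid N] (f : M →* N)
    (hf : Function.Injective f) : Function.Injective (SP.map f) := by
  intro a b h
  apply SP.ext
  · exact hf.image_injective (congrArg SP.set h)
  · exact hf (congrArg SP.elt h)

theorem rightCoherent_NE : RightCoherent (SP NE) := by
  refine Idl.rightCoherent_of NE.e ?_ ?_ ?_ ?_
  · intro h; cases h
  · intro f g h
    cases f with
    | one => rfl
    | e =>
      cases g with
      | one => exact h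
      | e => exact h
      | n k => exact absurd (show NE.n 0 = NE.one from h) (by intro h'; cases h')
    | n j =>
      cases g with
      | one => exact h
      | e => exact h
      | n k => exact absurd (show NE.n 0 = NE.one from h) (by intro h'; cases h')
  · intro f hf
    cases f with
    | one => exact absurd rfl hf
    | e => rfl
    | n k => rfl
  · refine Set.Finite.subset (Set.toFinite ({NE.e, NE.n 0} : Set NE)) ?_
    rintro _ ⟨g, rfl⟩
    cases g with
    | one => exact Or.inl rfl
    | e => exact Or.inl rfl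
    | n k => exact Or.inr rfl

theorem NU.one_def : (1 : NU) = NU.one := rfl

theorem NU.mul_eq_one {a b : NU} (h : a * b = 1) : a = 1 ∧ b = 1 := by
  cases a with
  | one => exact ⟨rfl, h⟩
  | n k =>
    cases b with
    | one => exact absurd (show NU.n k = NU.one from h) (by intro h'; cases h')
    | n l => exact absurd (show NU.n 0 = NU.one from h) (by intro h'; cases h')

theorem NU.mul_eq_n {a b : NU} {j : ℕ} (hj : j ≠ 0) (h : a * b = NU.n j) :
    (a = 1 ∧ b = NU.n j) ∨ (a = NU.n j ∧ b = 1) := by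
  cases a with
  | one => exact Or.inl ⟨rfl, h⟩
  | n k =>
    cases b with
    | one => exact Or.inr ⟨h, rfl⟩
    | n l =>
      have h' : NU.n 0 = NU.n j := h
      cases h'
      exact absurd rfl hj

theorem NU.n_mul_n (j k : ℕ) : NU.n j * NU.n k = NU.n 0 := rfl
theorem NU.n_mul_one (j : ℕ) : NU.n j * 1 = NU.n j := rfl

theorem NU.n_injective : Function.Injective NU.n := fun a b h => by cases h; rfl

theorem NU.n_ne_one (j : ℕ) : NU.n j ≠ 1 := by intro h; cases h

theorem not_rightCoherent_NU : ¬ RightCoherent (SP NU) := by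
  intro hS
  obtain ⟨K1, hfin, hK1, hP⟩ := exists_finite_annihilator hS (op (⟨∅, NU.n 1⟩ : SP NU))
  let C : Set (SP NU) := (fun k : (SP NU)ᵐᵒᵖ × (SP NU)ᵐᵒᵖ => k.1.unop) '' K1 ∪
    (fun k : (SP NU)ᵐᵒᵖ × (SP NU)ᵐᵒᵖ => k.2.unop) '' K1
  have hC : C.Finite := (hfin.image _).union (hfin.image _)
  let Bad : Set NU := ⋃ k ∈ {k ∈ C | k.set.Finite}, k.set
  have hBad : Bad.Finite :=
    Set.Finite.biUnion (hC.subset (Set.sep_subset _ _)) (fun k hk => hk.2)
  have hpre : (NU.n ⁻¹' Bad).Finite := hBad.preimage (NU.n_injective.injOn)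
  obtain ⟨j, hj⟩ := hpre.exists_notMem
  let P : (SP NU)ᵐᵒᵖ → Prop := fun w => w = op ⟨{NU.n j}, 1⟩
  have hone : ∀ k k' : SP NU, k ∈ C →
      (⟨∅, NU.n 1⟩ : SP NU) * k = (⟨∅, NU.n 1⟩ : SP NU) * k' →
      ∀ w : SP NU, k * w = ⟨{NU.n j}, 1⟩ → k' * w = ⟨{NU.n j}, 1⟩ := by
    intro k k' hk hkk w hw
    have h1 : k.elt * w.elt = 1 := congrArg SP.elt hw
    obtain ⟨hke, hwe⟩ := NU.mul_eq_one h1
    have h2 : k.set ∪ (fun y => k.elt * y) '' w.set = {NU.n j} := congrArg SP.set hw
    have h3 : k.set ⊆ {NU.n j} := by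
      rw [← h2]
      exact Set.subset_union_left
    have hks : k.set = ∅ := by
      rcases Set.subset_singleton_iff_eq.mp h3 with h | h
      · exact h
      · exfalso
        apply hj
        change NU.n j ∈ Bad
        refine Set.mem_biUnion (show k ∈ {k ∈ C | k.set.Finite} from ⟨hk, ?_⟩) ?_
        · rw [h]; exact Set.finite_singleton _
        · rw [h]; rfl
    have h4 : (∅ : Set NU) ∪ (fun y => NU.n 1 * y) '' k.set =
        ∅ ∪ (fun y => NU.n 1 * y) '' k'.set := congrArg SP.set hkk
    have hk's : k'.set = ∅ := by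
      rw [hks, Set.image_empty, Set.empty_union, Set.empty_union] at h4
      exact Set.image_eq_empty.mp h4.symm
    have h5 : NU.n 1 * k.elt = NU.n 1 * k'.elt := congrArg SP.elt hkk
    have hk'e : k'.elt = 1 := by
      rw [hke] at h5
      rcases NU.mul_eq_n (by norm_num) h5.symm with h | h
      · exact absurd h.1 (NU.n_ne_one 1)
      · exact h.2
    have : k' = k := by
      apply SP.ext
      · rw [hks, hk's]
      · rw [hke, hk'e]
    rw [this]
    exact hw
  have hinv : ∀ k ∈ K1, ∀ w : (SP NU)ᵐᵒᵖ, P (w * k.1) ↔ P (w * k.2) := by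
    intro k hk w
    have hk' : (⟨∅, NU.n 1⟩ : SP NU) * k.1.unop = (⟨∅, NU.n 1⟩ : SP NU) * k.2.unop :=
      congrArg unop (hK1 k hk)
    constructor
    · intro h
      apply unop_injective
      exact hone k.1.unop k.2.unop (Or.inl ⟨k, hk, rfl⟩) hk' w.unop (congrArg unop h)
    · intro h
      apply unop_injective
      exact hone k.2.unop k.1.unop (Or.inr ⟨k, hk, rfl⟩) hk'.symm w.unop (congrArg unop h)
  have hfinal := hP P hinv (op ⟨{NU.n j}, 1⟩) (op ⟨{NU.n (j + 1)}, 1⟩) (by
    apply unop_injective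
    apply SP.ext
    · change (∅ : Set NU) ∪ (fun y => NU.n 1 * y) '' {NU.n j} =
        ∅ ∪ (fun y => NU.n 1 * y) '' {NU.n (j + 1)}
      rw [Set.image_singleton, Set.image_singleton]
      rfl
    · rfl)
  have h6 : (op ⟨{NU.n (j + 1)}, 1⟩ : (SP NU)ᵐᵒᵖ) = op ⟨{NU.n j}, 1⟩ := hfinal.mp rfl
  have h7 : ({NU.n (j + 1)} : Set NU) = {NU.n j} := congrArg (fun s => s.unop.set) h6
  have h8 := NU.n_injective (Set.singleton_injective h7)
  omega

theorem not_leftCoherent_NU : ¬ LeftCoherent (SP NU) := by
  intro hS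
  obtain ⟨K1, hfin, hK1, hP⟩ := exists_finite_annihilator hS (⟨{1}, NU.n 1⟩ : SP NU)
  let C : Set (SP NU) := Prod.fst '' K1 ∪ Prod.snd '' K1
  have hC : C.Finite := (hfin.image _).union (hfin.image _)
  have hpre : (NU.n ⁻¹' (SP.elt '' C)).Finite := (hC.image _).preimage (NU.n_injective.injOn)
  obtain ⟨j, hj⟩ := (hpre.union (Set.finite_singleton 0)).exists_notMem
  have hj0 : j ≠ 0 := fun h => hj (Or.inr h)
  have hjC : ∀ k ∈ C, k.elt ≠ NU.n j := fun k hk h => hj (Or.inl ⟨k, hk, h⟩)
  obtain ⟨i, hi0, hij⟩ : ∃ i : ℕ, i ≠ 0 ∧ i ≠ j := ⟨j + 1, by omega, by omega⟩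
  let P : SP NU → Prop := fun w =>
    w.elt = NU.n j ∧ NU.n i ∈ w.set ∧ w.set ⊆ {NU.n i, NU.n j}
  have h0 : NU.n 0 ∉ ({NU.n i, NU.n j} : Set NU) := by
    rintro (h | h)
    · exact hi0 (NU.n_injective h).symm
    · exact hj0 (NU.n_injective h).symm
  have himg : ∀ X : Set NU, X ⊆ {1} → (fun y => NU.n j * y) '' X ⊆ {NU.n j} := by
    rintro X hX _ ⟨y, hy, rfl⟩
    have : y = 1 := hX hy
    rw [this]
    rfl
  have hone : ∀ k k' : SP NU, k ∈ C → k * (⟨{1}, NU.n 1⟩ : SP NU) = k' * ⟨{1}, NU.n 1⟩ →
      ∀ w : SP NU, P (w * k) → P (w * k') := by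
    intro k k' hk hkk w hw
    obtain ⟨h1, h2, h3⟩ := hw
    rw [SP.mul_elt] at h1
    rw [SP.mul_set] at h2 h3
    obtain ⟨hwe, hke⟩ : w.elt = NU.n j ∧ k.elt = 1 := by
      rcases NU.mul_eq_n hj0 h1 with h | h
      · exact absurd h.2 (hjC k hk)
      · exact h
    rw [hwe] at h2 h3
    have hks : k.set ⊆ {1} := by
      intro x hx
      cases x with
      | one => rfl
      | n l => exact absurd (h3 (Or.inr ⟨NU.n l, hx, rfl⟩)) h0
    have hset : k.set ∪ (fun y => k.elt * y) '' {1} = k'.set ∪ (fun y => k'.elt * y) '' {1} :=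
      congrArg SP.set hkk
    rw [Set.image_singleton, Set.image_singleton, mul_one, mul_one, hke] at hset
    have hk'e : k'.elt = 1 := by
      have : k'.elt ∈ k.set ∪ {1} := by rw [hset]; exact Or.inr rfl
      rcases this with h | h
      · exact hks h
      · exact h
    have hk's : k'.set ⊆ {1} := by
      intro x hx
      have : x ∈ k.set ∪ {1} := by rw [hset]; exact Or.inl hx
      rcases this with h | h
      · exact hks h
      · exact h
    refine ⟨?_, ?_, ?_⟩
    · rw [SP.mul_elt, hk'e, mul_one, hwe]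
    · rw [SP.mul_set]
      rcases h2 with h | h
      · exact Or.inl h
      · exact absurd (NU.n_injective (himg _ hks h)) hij
    · rw [SP.mul_set, hwe]
      rintro x (hx | hx)
      · exact h3 (Or.inl hx)
      · exact Or.inr (himg _ hk's hx)
  have hinv : ∀ k ∈ K1, ∀ w : SP NU, P (w * k.1) ↔ P (w * k.2) := by
    intro k hk w
    constructor
    · exact hone k.1 k.2 (Or.inl ⟨k, hk, rfl⟩) (hK1 k hk) w
    · exact hone k.2 k.1 (Or.inr ⟨k, hk, rfl⟩) (hK1 k hk).symm w
  have hfinal := hP P hinv ⟨{NU.n i}, NU.n j⟩ ⟨{NU.n j}, NU.n i⟩ (by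
    apply SP.ext
    · rw [SP.mul_set, SP.mul_set]
      dsimp only
      rw [Set.image_singleton, Set.image_singleton, mul_one, mul_one, Set.union_comm]
    · rfl)
  have := hfinal.mp ⟨rfl, rfl, by
    dsimp only
    intro x hx
    exact Or.inl hx⟩
  exact hij (NU.n_injective this.1)

end X193.COH
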