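import Pool.Agent.X193.COH.Defs

namespace X193.COH

open MulOpposite

abbrev W := SP RZ

/-- the element `(i, (X, x))` of the free right act -/
abbrev el {n : ℕ} (i : Fin n) (X : Set RZ) (x : RZ) : Fin n × Wᵐᵒᵖ := (i, op ⟨X, x⟩)

/-- the set-level left multiplication -/
def lm (x : RZ) (Y : Set RZ) : Set RZ := (fun y => x * y) '' Y

theorem mem_lm {x z : RZ} {Y : Set RZ} :
    z ∈ lm x Y ↔ (z ≠ 1 ∧ z ∈ Y) ∨ (z = x ∧ (1 : RZ) ∈ Y) := RZ.mem_image

theorem mul_op (X Y : Set RZ) (x y : RZ) :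
    (op (⟨Y, y⟩ : W)) * (op (⟨X, x⟩ : W)) = op (⟨X ∪ lm x Y, x * y⟩ : W) := rfl

theorem lm_of_one_notMem {x : RZ} {C : Set RZ} (hC : (1 : RZ) ∉ C) : lm x C = C := by
  ext z
  rw [mem_lm]
  constructor
  · rintro (⟨_, h⟩ | ⟨_, h⟩)
    · exact h
    · exact absurd h hC
  · intro h
    left
    refine ⟨?_, h⟩
    rintro rfl
    exact hC h

/-- adding a set `C` of nonidentity elements to both sides -/
theorem add_set {m : ℕ} {K : Set ((Fin m × Wᵐᵒᵖ) × (Fin m × Wᵐᵒᵖ))} {i j : Fin m}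
    {X Y C : Set RZ} {u v : RZ} (hC : (1 : RZ) ∉ C) (h : ActGen K (el i X u) (el j Y v)) :
    ActGen K (el i (X ∪ C) u) (el j (Y ∪ C) v) := by
  have := ActGen.smul (op (⟨C, 1⟩ : W)) _ _ h
  dsimp only at this
  rw [mul_op, mul_op, lm_of_one_notMem hC, lm_of_one_notMem hC, mul_one, mul_one] at this
  exact this

section tau

variable {ι : Type} (τ : RZ → ι)

open Classical in
/-- The uniformisation of `X` at `r`. -/
noncomputable def Phi (r : RZ) (X : Set RZ) : Set RZ :=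
  {x | if τ x = τ r then r ∈ X else x ∈ X}

theorem mem_Phi_of_eq {r x : RZ} {X : Set RZ} (h : τ x = τ r) : x ∈ Phi τ r X ↔ r ∈ X := by
  simp [Phi, h]

theorem mem_Phi_of_ne {r x : RZ} {X : Set RZ} (h : τ x ≠ τ r) : x ∈ Phi τ r X ↔ x ∈ X := by
  simp [Phi, h]

theorem Phi_union (r : RZ) (X Y : Set RZ) : Phi τ r (X ∪ Y) = Phi τ r X ∪ Phi τ r Y := by
  ext x
  by_cases h : τ x = τ r
  · rw [Set.mem_union, mem_Phi_of_eq τ h, mem_Phi_of_eq τ h, mem_Phi_of_eq τ h, Set.mem_union]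
  · rw [Set.mem_union, mem_Phi_of_ne τ h, mem_Phi_of_ne τ h, mem_Phi_of_ne τ h, Set.mem_union]

/-- `U` is uniform on the class `t`. -/
def Unif (t : ι) (U : Set RZ) : Prop := ∀ x y, τ x = t → τ y = t → (x ∈ U ↔ y ∈ U)

theorem Phi_fix {r : RZ} {D : Set RZ} (h : Unif τ (τ r) D) : Phi τ r D = D := by
  ext x
  by_cases hx : τ x = τ r
  · rw [mem_Phi_of_eq τ hx]
    exact h r x rfl hx
  · rw [mem_Phi_of_ne τ hx]

theorem Phi_unif (r : RZ) (X : Set RZ) : Unif τ (τ r) (Phi τ r X) := by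
  intro x y hx hy
  rw [mem_Phi_of_eq τ hx, mem_Phi_of_eq τ hy]

theorem Phi_unif' {r : RZ} {X : Set RZ} {t : ι} (h : Unif τ t X) : Unif τ t (Phi τ r X) := by
  by_cases ht : t = τ r
  · rw [ht]; exact Phi_unif τ r X
  · intro x y hx hy
    rw [mem_Phi_of_ne τ (by rw [hx]; exact ht), mem_Phi_of_ne τ (by rw [hy]; exact ht)]
    exact h x y hx hy

/-- `q` is alone in its class -/
def Sing (q : RZ) : Prop := ∀ x, τ x = τ q → x = q

theorem Phi_lm {r q : RZ} {X : Set RZ} (hq : Sing τ q) (h1 : Sing τ 1) :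
    Phi τ r (lm q X) = lm q (Phi τ r X) := by
  by_cases hr : r = q ∨ r = 1
  · -- the class of `r` is a singleton
    have hs : Sing τ r := by
      rcases hr with rfl | rfl
      · exact hq
      · exact h1
    have hu : ∀ D : Set RZ, Unif τ (τ r) D := by
      intro D x y hx hy
      rw [hs x hx, hs y hy]
    rw [Phi_fix τ (hu _), Phi_fix τ (hu _)]
  · push Not at hr
    obtain ⟨hrq, hr1⟩ := hr
    have h1r : τ 1 ≠ τ r := fun h => hr1 (h1 r h.symm)
    ext x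
    by_cases hx : τ x = τ r
    · have hxq : x ≠ q := by
        rintro rfl
        exact hrq (hq r hx.symm)
      have hx1 : x ≠ 1 := by
        rintro rfl
        exact hr1 (h1 r hx.symm)
      rw [mem_Phi_of_eq τ hx, mem_lm, mem_lm, mem_Phi_of_eq τ hx]
      constructor
      · rintro (⟨_, h⟩ | ⟨h, _⟩)
        · exact Or.inl ⟨hx1, h⟩
        · exact absurd h hrq
      · rintro (⟨_, h⟩ | ⟨h, _⟩)
        · exact Or.inl ⟨hr1, h⟩
        · exact absurd h hxq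
    · rw [mem_Phi_of_ne τ hx, mem_lm, mem_lm, mem_Phi_of_ne τ hx, mem_Phi_of_ne τ h1r]

/-- action of the uniformisation on the free act -/
noncomputable def PhiA {n : ℕ} (r : RZ) (p : Fin n × Wᵐᵒᵖ) : Fin n × Wᵐᵒᵖ :=
  (p.1, op ⟨Phi τ r p.2.unop.set, p.2.unop.elt⟩)

theorem PhiA_mul {n : ℕ} {r : RZ} {i : Fin n} {D X : Set RZ} {d x : RZ}
    (hD : Unif τ (τ r) D) (hd : Sing τ d) (h1 : Sing τ 1) :
    PhiA τ r (i, (op (⟨X, x⟩ : W)) * op (⟨D, d⟩ : W)) =
      (i, (op (⟨Phi τ r X, x⟩ : W)) * op (⟨D, d⟩ : W)) := by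
  rw [mul_op, mul_op]
  unfold PhiA
  dsimp only [unop_op]
  rw [Phi_union, Phi_fix τ hD, Phi_lm τ hd h1]

/-- `ActGen K` is invariant under uniformisation. -/
theorem actGen_PhiA {n : ℕ} {K : Set ((Fin n × Wᵐᵒᵖ) × (Fin n × Wᵐᵒᵖ))} (r : RZ)
    (h1 : Sing τ 1)
    (hK1 : ∀ k ∈ K, Sing τ k.1.2.unop.elt ∧ Unif τ (τ r) k.1.2.unop.set)
    (hK2 : ∀ k ∈ K, Sing τ k.2.2.unop.elt ∧ Unif τ (τ r) k.2.2.unop.set)
    {p q : Fin n × Wᵐᵒᵖ} (h : ActGen K p q) : ActGen K (PhiA τ r p) (PhiA τ r q) := by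
  refine ActGen.map (ActGen.equivalence K) (PhiA τ r) ?_ h
  rintro ⟨i, D⟩ ⟨j, E⟩ hpq s
  obtain ⟨a1, a2⟩ := hK1 _ hpq
  obtain ⟨b1, b2⟩ := hK2 _ hpq
  obtain ⟨s⟩ := s
  obtain ⟨D⟩ := D
  obtain ⟨E⟩ := E
  obtain ⟨X, x⟩ := s
  obtain ⟨D, d⟩ := D
  obtain ⟨E, e⟩ := E
  replace a1 : Sing τ d := a1
  replace a2 : Unif τ (τ r) D := a2
  replace b1 : Sing τ e := b1
  replace b2 : Unif τ (τ r) E := b2
  change ActGen K (PhiA τ r (i, (op (⟨X, x⟩ : W)) * op (⟨D, d⟩ : W)))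
    (PhiA τ r (j, (op (⟨X, x⟩ : W)) * op (⟨E, e⟩ : W)))
  rw [PhiA_mul τ a2 a1 h1, PhiA_mul τ b2 b1 h1]
  exact ActGen.smul _ _ _ (ActGen.base _ _ hpq)

end tau

/-! ### second components -/

section level

variable {n : ℕ} {K : Set ((Fin n × Wᵐᵒᵖ) × (Fin n × Wᵐᵒᵖ))} {y : RZ}

theorem mul_eq_iff {d z : RZ} (hy : y ≠ 1) (hd : d ≠ y) : d * z = y ↔ z = y := by
  by_cases hz : z = 1
  · subst hz
    rw [mul_one]
    exact ⟨fun h => absurd h hd, fun h => absurd h.symm hy⟩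
  · rw [RZ.mul_ne_one hz]

theorem actGen_level (hy : y ≠ 1) (hK : ∀ k ∈ K, k.1.2.unop.elt ≠ y ∧ k.2.2.unop.elt ≠ y)
    {p q : Fin n × Wᵐᵒᵖ} (h : ActGen K p q) : p.2.unop.elt = y ↔ q.2.unop.elt = y := by
  refine ActGen.map (S := Wᵐᵒᵖ) (n := n) (m := n)
    (R := fun p q : Fin n × Wᵐᵒᵖ => (p.2.unop.elt = y ↔ q.2.unop.elt = y))
    ⟨fun _ => Iff.rfl, fun h => Iff.symm h, fun h1 h2 => Iff.trans h1 h2⟩ id ?_ h
  rintro p q hpq s
  obtain ⟨a1, a2⟩ := hK _ hpq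
  dsimp only [id] at a1 a2 ⊢
  rw [unop_mul, unop_mul, SP.mul_elt, SP.mul_elt, mul_eq_iff hy a1, mul_eq_iff hy a2]

open Classical in
/-- replace the second component `y` by `y0` -/
noncomputable def rep (y y0 : RZ) (p : Fin n × Wᵐᵒᵖ) : Fin n × Wᵐᵒᵖ :=
  (p.1, op ⟨p.2.unop.set, if p.2.unop.elt = y then y0 else p.2.unop.elt⟩)

theorem actGen_rep {y0 : RZ} (hy0 : y0 ≠ 1) (hy : y ≠ 1)
    (hK : ∀ k ∈ K, k.1.2.unop.elt ≠ y ∧ k.2.2.unop.elt ≠ y)
    {p q : Fin n × Wᵐᵒᵖ} (h : ActGen K p q) : ActGen K (rep y y0 p) (rep y y0 q) := by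
  classical
  refine ActGen.map (ActGen.equivalence K) (rep y y0) ?_ h
  have key : ∀ (i : Fin n) (D X : Set RZ) (d x : RZ), d ≠ y →
      rep y y0 (i, (op (⟨X, x⟩ : W)) * op (⟨D, d⟩ : W)) =
        (i, (op (⟨X, if x = y then y0 else x⟩ : W)) * op (⟨D, d⟩ : W)) := by
    intro i D X d x hd
    rw [mul_op, mul_op]
    unfold rep
    dsimp only [unop_op]
    by_cases hx : x = y
    · rw [if_pos hx, if_pos ((mul_eq_iff hy hd).mpr hx), RZ.mul_ne_one hy0]
    · rw [if_neg hx, if_neg (fun h => hx ((mul_eq_iff hy hd).mp h))]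
  rintro ⟨i, D⟩ ⟨j, E⟩ hpq s
  obtain ⟨a1, a2⟩ := hK _ hpq
  obtain ⟨s⟩ := s
  obtain ⟨D⟩ := D
  obtain ⟨E⟩ := E
  obtain ⟨X, x⟩ := s
  obtain ⟨D, d⟩ := D
  obtain ⟨E, e⟩ := E
  replace a1 : d ≠ y := a1
  replace a2 : e ≠ y := a2
  change ActGen K (rep y y0 (i, (op (⟨X, x⟩ : W)) * op (⟨D, d⟩ : W)))
    (rep y y0 (j, (op (⟨X, x⟩ : W)) * op (⟨E, e⟩ : W)))
  rw [key _ _ _ _ _ a1, key _ _ _ _ _ a2]
  exact ActGen.smul _ _ _ (ActGen.base _ _ hpq)

end level

/-! ### mixing -/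

/-- the mixing lemma on one class `T` -/
theorem mixing {m : ℕ} {K : Set ((Fin m × Wᵐᵒᵖ) × (Fin m × Wᵐᵒᵖ))} {i j : Fin m} {u v : RZ}
    {U V T : Set RZ} (hT1 : (1 : RZ) ∉ T) (hTne : T.Nonempty)
    (h : ∀ r ∈ T, ∀ A B : Set RZ, (r ∈ U → A = T) → (r ∉ U → A = ∅) → (r ∈ V → B = T) →
      (r ∉ V → B = ∅) → ActGen K (el i (U \ T ∪ A) u) (el j (V \ T ∪ B) v)) :
    ActGen K (el i U u) (el j V v) := by
  classical
  -- the traces
  have hU : U = U \ T ∪ (U ∩ T) := (Set.sdiff_union_inter U T).symm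
  have hV : V = V \ T ∪ (V ∩ T) := (Set.sdiff_union_inter V T).symm
  have hC : ∀ C : Set RZ, C ⊆ T → (1 : RZ) ∉ C := fun C hC h => hT1 (hC h)
  have hUT : (1 : RZ) ∉ U ∩ T := hC _ Set.inter_subset_right
  have hVT : (1 : RZ) ∉ V ∩ T := hC _ Set.inter_subset_right
  have e1 : ∀ X Y : Set RZ, Y ⊆ T → X ∪ T ∪ Y = X ∪ T := by
    intro X Y hY
    rw [Set.union_assoc, Set.union_eq_self_of_subset_right hY]
  -- the four possible facts
  have h11 : ∀ r ∈ T, r ∈ U → r ∈ V → ActGen K (el i (U \ T ∪ T) u) (el j (V \ T ∪ T) v) := by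
    intro r hr h1 h2
    exact h r hr T T (fun _ => rfl) (fun h' => absurd h1 h') (fun _ => rfl) (fun h' => absurd h2 h')
  have h10 : ∀ r ∈ T, r ∈ U → r ∉ V → ActGen K (el i (U \ T ∪ T) u) (el j (V \ T) v) := by
    intro r hr h1 h2
    have := h r hr T ∅ (fun _ => rfl) (fun h' => absurd h1 h') (fun h' => absurd h' h2)
      (fun _ => rfl)
    rwa [Set.union_empty] at this
  have h01 : ∀ r ∈ T, r ∉ U → r ∈ V → ActGen K (el i (U \ T) u) (el j (V \ T ∪ T) v) := by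
    intro r hr h1 h2
    have := h r hr ∅ T (fun h' => absurd h' h1) (fun _ => rfl) (fun _ => rfl)
      (fun h' => absurd h2 h')
    rwa [Set.union_empty] at this
  have h00 : ∀ r ∈ T, r ∉ U → r ∉ V → ActGen K (el i (U \ T) u) (el j (V \ T) v) := by
    intro r hr h1 h2
    have := h r hr ∅ ∅ (fun h' => absurd h' h1) (fun _ => rfl) (fun h' => absurd h' h2)
      (fun _ => rfl)
    rwa [Set.union_empty, Set.union_empty] at this
  rw [hU, hV]
  by_cases c10 : ∃ r ∈ T, r ∈ U ∧ r ∉ V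
  · obtain ⟨r, hr, hrU, hrV⟩ := c10
    have f10 := h10 r hr hrU hrV
    by_cases c01 : ∃ r ∈ T, r ∉ U ∧ r ∈ V
    · obtain ⟨r', hr', hrU', hrV'⟩ := c01
      have f01 := h01 r' hr' hrU' hrV'
      have g1 := add_set hUT f01
      rw [e1 _ _ Set.inter_subset_right] at g1
      have g2 := add_set hT1 f10
      rw [e1 _ _ subset_rfl] at g2
      have g3 := add_set hVT f10
      rw [e1 _ _ Set.inter_subset_right] at g3
      exact (g1.trans _ _ _ g2.symm).trans _ _ _ g3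
    · push Not at c01
      have g3 := add_set hVT f10
      rw [e1 _ _ Set.inter_subset_right] at g3
      refine ActGen.trans _ _ _ ?_ g3
      by_cases c00 : ∃ r ∈ T, r ∉ U ∧ r ∉ V
      · obtain ⟨r', hr', hrU', hrV'⟩ := c00
        have f00 := h00 r' hr' hrU' hrV'
        have g4 := add_set hUT (f00.trans _ _ _ f10.symm)
        rw [e1 _ _ Set.inter_subset_right] at g4
        exact g4
      · push Not at c00
        have : U ∩ T = T := by
          apply Set.inter_eq_right.mpr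
          intro x hx
          by_contra hxU
          exact c01 x hx hxU (c00 x hx hxU)
        rw [this]
        exact ActGen.refl _
  · push Not at c10
    by_cases c01 : ∃ r ∈ T, r ∉ U ∧ r ∈ V
    · obtain ⟨r', hr', hrU', hrV'⟩ := c01
      have f01 := h01 r' hr' hrU' hrV'
      have g1 := add_set hUT f01
      rw [e1 _ _ Set.inter_subset_right] at g1
      refine ActGen.trans _ _ _ g1 ?_
      by_cases c00 : ∃ r ∈ T, r ∉ U ∧ r ∉ V
      · obtain ⟨r'', hr'', hrU'', hrV''⟩ := c00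
        have f00 := h00 r'' hr'' hrU'' hrV''
        have g4 := add_set hVT (f00.symm.trans _ _ _ f01)
        rw [e1 _ _ Set.inter_subset_right] at g4
        exact g4.symm
      · push Not at c00
        have : V ∩ T = T := by
          apply Set.inter_eq_right.mpr
          intro x hx
          by_cases hxU : x ∈ U
          · exact c10 x hx hxU
          · exact c00 x hx hxU
        rw [this]
        exact ActGen.refl _
    · push Not at c01
      have hUV : U ∩ T = V ∩ T := by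
        ext x
        constructor
        · rintro ⟨h1, h2⟩
          exact ⟨c10 x h2 h1, h2⟩
        · rintro ⟨h1, h2⟩
          refine ⟨?_, h2⟩
          by_contra h3
          exact c01 x h2 h3 h1
      by_cases c00 : ∃ r ∈ T, r ∉ U ∧ r ∉ V
      · obtain ⟨r'', hr'', hrU'', hrV''⟩ := c00
        have f00 := h00 r'' hr'' hrU'' hrV''
        have g4 := add_set hUT f00
        rw [← hUV]
        exact g4
      · push Not at c00
        have hTU : U ∩ T = T := by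
          apply Set.inter_eq_right.mpr
          intro x hx
          by_contra hxU
          exact c01 x hx hxU (c00 x hx hxU)
        rw [← hUV, hTU]
        obtain ⟨r, hr⟩ := hTne
        have hrU : r ∈ U := (hTU.symm ▸ hr : r ∈ U ∩ T).1
        exact h11 r hr hrU (c10 r hr hrU)

end X193.COH
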